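import Mathlib

set_option autoImplicit false

namespace Pool.Agent.P.MP_f3d782_pr

variable {α : Type}

/-- A word is proper if adjacent letters differ. -/
abbrev Pr (x : List α) : Prop := x.IsChain (· ≠ ·)

/-- The sum of `h` over all one-letter deletions of a word. -/
def S : List α → (List α → ℕ) → ℕ
  | [], _ => 0
  | a :: x, h => h x + S x (fun y => h (a :: y))

theorem S_le_S {x : List α} {h h' : List α → ℕ}
    (H : ∀ u c v, x = u ++ c :: v → h (u ++ v) ≤ h' (u ++ v)) : S x h ≤ S x h' := by
  induction x generalizing h h' with
  | nil => exact le_rfl
  | cons a x ih =>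
    exact add_le_add (H [] a x rfl) (ih fun u c v e => H (a :: u) c v (by rw [e]; rfl))

theorem S_congr {x : List α} {h h' : List α → ℕ}
    (H : ∀ y, y.length + 1 = x.length → h y = h' y) : S x h = S x h' :=
  le_antisymm (S_le_S fun u c v e => (H _ (by simp [e]; omega)).le)
    (S_le_S fun u c v e => (H _ (by simp [e]; omega)).ge)

theorem S_append (u v : List α) (h : List α → ℕ) :
    S (u ++ v) h = S u (fun y => h (y ++ v)) + S v (fun y => h (u ++ y)) := by
  induction u generalizing h with
  | nil => simp [S]
  | cons a u ih => simp [S, ih, add_assoc]

theorem S_reverse (x : List α) (h : List α → ℕ) :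
    S x.reverse h = S x (fun y => h y.reverse) := by
  induction x generalizing h with
  | nil => rfl
  | cons a x ih => simp [S, S_append, ih, add_comm]

theorem S_mul (x : List α) (c : ℕ) (h : List α → ℕ) :
    S x (fun y => c * h y) = c * S x h := by
  induction x generalizing h with
  | nil => rfl
  | cons a x ih => simp [S, ih, mul_add]

theorem S_const (x : List α) (c : ℕ) : S x (fun _ => c) = x.length * c := by
  induction x with
  | nil => simp [S]
  | cons a x ih => simp [S, ih]; ring

theorem le_S (u : List α) (c : α) (v : List α) (h : List α → ℕ) :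
    h (u ++ v) ≤ S (u ++ c :: v) h := by
  rw [S_append]
  simp only [S]
  omega

variable [DecidableEq α]

def Bn : ℕ → List α → ℕ
  | 0, _ => 1
  | n + 1, x => if Pr x then S x (Bn n) else 0

/-- The number of proper buildings of a word. -/
def B (x : List α) : ℕ := Bn x.length x

@[simp] theorem B_nil : B ([] : List α) = 1 := rfl

theorem B_eq {x : List α} (hx : x ≠ []) : B x = if Pr x then S x B else 0 := by
  obtain ⟨a, t, rfl⟩ := List.exists_cons_of_ne_nil hx
  unfold B
  simp only [List.length_cons, Bn]
  split_ifs
  · exact S_congr fun y hy => by
      have : y.length = t.length := by simpa using hy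
      rw [this]
  · rfl

theorem B_of_not_pr {x : List α} (hx : ¬ Pr x) : B x = 0 := by
  rw [B_eq (by rintro rfl; exact hx List.isChain_nil), if_neg hx]

theorem S_B_le {x : List α} (hx : Pr x) : S x B ≤ B x := by
  by_cases h : x = []
  · subst h; simp [S]
  · rw [B_eq h, if_pos hx]

theorem B_le_S {x : List α} (hx : x ≠ []) : B x ≤ S x B := by
  rw [B_eq hx]
  split_ifs <;> simp

theorem B_pos {x : List α} (hx : Pr x) : 1 ≤ B x := by
  induction x with
  | nil => simp
  | cons a x ih => exact (ih hx.tail).trans ((le_S [] a x B).trans (S_B_le hx))

theorem pr_of_B_ne {x : List α} (hx : B x ≠ 0) : Pr x := by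
  by_contra h
  exact hx (B_of_not_pr h)

theorem B_le_fact (x : List α) : B x ≤ x.length.factorial := by
  induction hn : x.length generalizing x with
  | zero => simp [List.length_eq_zero_iff.mp hn]
  | succ n ih =>
    have hx : x ≠ [] := by rintro rfl; simp at hn
    refine (B_le_S hx).trans ((S_le_S (h' := fun _ => n.factorial) fun u c v e =>
      ih _ (by simp [e] at hn ⊢; omega)).trans ?_)
    rw [S_const, hn, Nat.factorial_succ]

theorem B_append_le (u v : List α) :
    B (u ++ v) ≤ (u.length + v.length).choose u.length * B u * B v := by
  induction hn : u.length + v.length generalizing u v with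
  | zero =>
    obtain rfl : u = [] := List.length_eq_zero_iff.mp (by omega)
    obtain rfl : v = [] := List.length_eq_zero_iff.mp (by omega)
    simp
  | succ n ih =>
    by_cases hu : u = []
    · subst hu; simp
    by_cases hv : v = []
    · subst hv
      simp only [List.length_nil, add_zero] at hn
      simp [← hn]
    by_cases hp : Pr (u ++ v)
    swap
    · simp [B_of_not_pr hp]
    obtain ⟨i, hi⟩ : ∃ i, u.length = i + 1 :=
      Nat.exists_eq_succ_of_ne_zero (by simpa using hu)
    have h1 : S u (fun y => B (y ++ v)) ≤ n.choose i * B v * B u := by
      rw [B_eq hu, if_pos hp.left_of_append, ← S_mul]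
      refine S_le_S fun a c b e => ?_
      have e1 : (a ++ b).length = i := by simp [e] at hi ⊢; omega
      have := ih (a ++ b) v (by omega)
      rw [e1] at this
      linarith
    have h2 : S v (fun y => B (u ++ y)) ≤ n.choose (i + 1) * B u * B v := by
      rw [B_eq hv, if_pos hp.right_of_append, ← S_mul]
      refine S_le_S fun a c b e => ?_
      have := ih u (a ++ b) (by simp [e] at hn ⊢; omega)
      rwa [hi] at this
    rw [B_eq (by simp [hu]), if_pos hp, S_append, hi, Nat.choose_succ_succ']
    nlinarith

/-- `1` if the letter `a` in front of `t` differs from the second letter of `t`. -/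
def df (a : α) : List α → ℕ
  | _ :: c :: _ => if a = c then 0 else 1
  | _ => 0

/-- The number of positions whose two neighbours differ. -/
def D : List α → ℕ
  | [] => 0
  | a :: t => df a t + D t

theorem df_le_one (a : α) (t : List α) : df a t ≤ 1 := by
  unfold df
  split
  · split_ifs <;> simp
  · simp

theorem df_append {a : α} {t : List α} (h : 2 ≤ t.length) (v : List α) :
    df a (t ++ v) = df a t := by
  match t, h with
  | _ :: _ :: _, _ => rfl

theorem df_short {a : α} {t : List α} (h : t.length < 2) : df a t = 0 := by
  match t, h with
  | [], _ => rfl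
  | [_], _ => rfl

theorem df_mono (a : α) (t v : List α) : df a t ≤ df a (t ++ v) := by
  by_cases h : 2 ≤ t.length
  · rw [df_append h]
  · rw [df_short (by omega)]; exact Nat.zero_le _

theorem D_append_ge (u v : List α) : D u + D v ≤ D (u ++ v) := by
  induction u with
  | nil => simp [D]
  | cons a u ih =>
    have := df_mono a u v
    simp only [List.cons_append, D]
    omega

theorem D_append_le (u v : List α) : D (u ++ v) ≤ u.length + D v := by
  induction u with
  | nil => simp
  | cons a u ih =>
    have := df_le_one a (u ++ v)
    simp only [List.cons_append, D, List.length_cons]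
    omega

theorem D_append_le' (u v : List α) : D (u ++ v) ≤ D u + D v + min u.length 2 := by
  induction u with
  | nil => simp [D]
  | cons a u ih =>
    simp only [List.cons_append, D, List.length_cons]
    by_cases h : 2 ≤ u.length
    · rw [df_append h]; omega
    · have := df_le_one a (u ++ v)
      omega

theorem D_splice (u m v : List α) (h : 2 ≤ m.length) :
    D (u ++ m ++ v) + D m = D (u ++ m) + D (m ++ v) := by
  induction u with
  | nil => simp [add_comm]
  | cons a u ih =>
    simp only [List.cons_append, D]
    rw [df_append (by simp; omega)]
    omega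

theorem D_infix_le (u m v : List α) : D m ≤ D (u ++ m ++ v) := by
  have h1 := D_append_ge u m
  have h2 := D_append_ge (u ++ m) v
  omega

theorem D_le_length (x : List α) : D x ≤ x.length - 2 := by
  induction x with
  | nil => simp [D]
  | cons a x ih =>
    simp only [D, List.length_cons]
    by_cases h : 2 ≤ x.length
    · have := df_le_one a x; omega
    · rw [df_short (by omega)]; omega

theorem D_le_S (a : α) (t : List α) (h : Pr (a :: t)) :
    D (a :: t) ≤ S t (fun y => if Pr (a :: y) then 1 else 0) := by
  induction t generalizing a with
  | nil => simp [D, df]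
  | cons b t ih =>
    have h1 := ih b h.tail
    have hab : a ≠ b := (List.isChain_cons_cons.mp h).1
    have h2 : df a (b :: t) ≤ if Pr (a :: t) then 1 else 0 := by
      cases t with
      | nil => simp [df]
      | cons c t =>
        by_cases hac : a = c
        · simp [df, hac]
        · rw [if_pos (List.isChain_cons_cons.mpr ⟨hac, h.tail.tail⟩)]
          exact df_le_one _ _
    have h3 : S t (fun y => if Pr (b :: y) then 1 else 0) =
        S t (fun y => if Pr (a :: b :: y) then 1 else 0) :=
      S_congr fun y _ => by simp [List.isChain_cons_cons, hab]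
    rw [D, S]
    omega

theorem fact_le_B (k : ℕ) {x : List α} (hx : Pr x) (hk : 3 * k ≤ D x) : k.factorial ≤ B x := by
  induction k generalizing x with
  | zero => simpa using B_pos hx
  | succ k ih =>
    cases x with
    | nil => simp [D] at hk
    | cons a t =>
      have h1 := D_le_S a t hx
      have h2 : S (a :: t) (fun y => k.factorial * if Pr y then 1 else 0) ≤ S (a :: t) B := by
        refine S_le_S fun u c v e => ?_
        split_ifs with hp
        · rw [mul_one]
          refine ih hp ?_
          have e1 := D_append_le' u (c :: v)
          have e2 := D_append_le [c] v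
          have e3 := D_append_ge u v
          simp only [List.cons_append, List.nil_append, List.length_singleton] at e2
          rw [e] at hk
          omega
        · simp
      rw [S_mul] at h2
      have h3 : k + 1 ≤ S (a :: t) (fun y => if Pr y then 1 else 0) := by
        rw [S]; omega
      calc (k + 1).factorial = k.factorial * (k + 1) := by rw [Nat.factorial_succ, mul_comm]
        _ ≤ _ := Nat.mul_le_mul_left _ h3
        _ ≤ _ := h2
        _ ≤ _ := S_B_le hx

/-- The alternating word of length `n` starting with `a, b`. -/
def alt : α → α → ℕ → List α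
  | _, _, 0 => []
  | a, b, n + 1 => a :: alt b a n

omit [DecidableEq α] in
@[simp] theorem length_alt (a b : α) (n : ℕ) : (alt a b n).length = n := by
  induction n generalizing a b with
  | zero => rfl
  | succ n ih => simp [alt, ih]

omit [DecidableEq α] in
theorem pr_alt {a b : α} (h : a ≠ b) (n : ℕ) : Pr (alt a b n) := by
  induction n generalizing a b with
  | zero => exact List.isChain_nil
  | succ n ih =>
    cases n with
    | zero => exact List.isChain_singleton _
    | succ n => exact List.isChain_cons_cons.mpr ⟨h, ih h.symm⟩

omit [DecidableEq α] in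
theorem mem_alt {a b c : α} {n : ℕ} (h : c ∈ alt a b n) : c = a ∨ c = b := by
  induction n generalizing a b with
  | zero => simp [alt] at h
  | succ n ih =>
    rcases List.mem_cons.mp h with h | h
    · exact Or.inl h
    · exact (ih h).symm

theorem D_alt (a b : α) (n : ℕ) : D (alt a b n) = 0 := by
  induction n generalizing a b with
  | zero => rfl
  | succ n ih =>
    rw [alt, D, ih]
    match n with
    | 0 => rfl
    | 1 => rfl
    | n + 2 => simp [alt, df]

omit [DecidableEq α] in
theorem alt_add (a b : α) (m n : ℕ) :
    alt a b (m + n) = alt a b m ++ (if Even m then alt a b n else alt b a n) := by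
  induction m generalizing a b with
  | zero => simp [alt]
  | succ m ih =>
    rw [Nat.succ_add, alt, alt, ih]
    by_cases h : Even m <;> simp [h, Nat.even_add_one]

omit [DecidableEq α] in
theorem reverse_alt (a b : α) (n : ℕ) :
    (alt a b n).reverse = if Even n then alt b a n else alt a b n := by
  induction n generalizing a b with
  | zero => simp [alt]
  | succ n ih =>
    conv_lhs => rw [alt, List.reverse_cons, ih]
    by_cases h : Even n
    · simp only [h, Nat.even_add_one, not_true, if_true, if_false]
      rw [alt_add a b n 1, if_pos h]; rfl
    · simp only [h, Nat.even_add_one, not_false_iff, if_true, if_false]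
      rw [alt_add b a n 1, if_neg h]; rfl

omit [DecidableEq α] in
theorem eq_alt {a b : α} {t : List α} (hp : Pr (a :: t)) (h : ∀ c ∈ t, c = a ∨ c = b) :
    a :: t = alt a b (t.length + 1) := by
  induction t generalizing a b with
  | nil => rfl
  | cons c t ih =>
    have h1 : a ≠ c := (List.isChain_cons_cons.mp hp).1
    obtain rfl : c = b := (h c (by simp)).resolve_left h1.symm
    have := ih (a := c) (b := a) hp.tail fun d hd => (h d (by simp [hd])).symm
    rw [alt, List.length_cons, ← this]

omit [DecidableEq α] in
theorem S_alt_ge (a b : α) (n : ℕ) (h : List α → ℕ) :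
    h (alt b a (n + 1)) + h (alt a b (n + 1)) ≤ S (alt a b (n + 2)) h := by
  change h (alt b a (n + 1)) + h (a :: alt b a n) ≤
    h (alt b a (n + 1)) + S (alt b a (n + 1)) (fun y => h (a :: y))
  refine Nat.add_le_add_left ?_ _
  have := le_S (alt b a n) (if Even n then b else a) [] (fun y => h (a :: y))
  rw [alt_add b a n 1]
  by_cases hn : Even n <;> simpa [hn, alt] using this

omit [DecidableEq α] in
theorem S_alt {h : List α → ℕ} (H : ∀ y, ¬ Pr y → h y = 0) (a b : α) (n : ℕ) :
    S (alt a b (n + 2)) h = h (alt b a (n + 1)) + h (alt a b (n + 1)) := by
  induction n generalizing a b h with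
  | zero => simp [alt, S]
  | succ n ih =>
    rw [alt, S, ih (h := fun y => h (a :: y)) (fun y hy => H _ fun hp => hy hp.tail)]
    have : h (a :: alt a b (n + 1)) = 0 := H _ (by simp [alt])
    simp only [this, zero_add]
    rfl

theorem B_alt_le (a b : α) (n : ℕ) : B (alt a b n) ≤ 2 ^ n := by
  induction n generalizing a b with
  | zero => simp [alt]
  | succ n ih =>
    cases n with
    | zero => simpa [alt] using (B_le_fact [a]).trans (by simp)
    | succ n =>
      refine (B_le_S (by simp [alt])).trans ?_
      rw [S_alt fun _ => B_of_not_pr]
      have h1 := ih a b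
      have h2 := ih b a
      rw [pow_succ]
      omega

theorem le_B_alt {a b : α} (h : a ≠ b) (n : ℕ) : 2 ^ n ≤ B (alt a b (n + 1)) := by
  induction n generalizing a b with
  | zero => exact B_pos (pr_alt h _)
  | succ n ih =>
    refine le_trans ?_ ((S_alt_ge a b n B).trans (S_B_le (pr_alt h _)))
    have h1 := ih h
    have h2 := ih h.symm
    rw [pow_succ]
    omega

theorem eq_alt_of_D {a b : α} {t : List α} (h : D (a :: b :: t) = 0) :
    a :: b :: t = alt a b (t.length + 2) := by
  induction t generalizing a b with
  | nil => rfl
  | cons c t ih =>
    rw [D] at h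
    have h1 : a = c := by
      by_contra hne
      simp [df, hne] at h
    subst h1
    have := ih (a := b) (b := a) (by omega)
    rw [alt, List.length_cons, ← this]

theorem B_le_of_D_zero {y : List α} (h : D y = 0) : B y ≤ 2 ^ y.length := by
  match y, h with
  | [], _ => simp
  | [a], _ => exact B_alt_le a a 1
  | a :: b :: t, h => rw [eq_alt_of_D h, length_alt]; exact B_alt_le _ _ _

end Pool.Agent.P.MP_f3d782_pr
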