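import Mathlib
import Pool.Agent.P.MP_f3d782_pr.Basic

set_option autoImplicit false

namespace Pool.Agent.P.MP_f3d782_pr

variable {α : Type} [DecidableEq α]

/-- Exponential upper bound for the number of buildings. -/
def UB (l c : ℝ) (x : List α) : Prop := (B x : ℝ) ≤ c * l ^ x.length

theorem choose_mul_le {l m : ℝ} (hl : 0 ≤ l) (hm : 0 ≤ m) (i j : ℕ) :
    ((i + j).choose i : ℝ) * l ^ i * m ^ j ≤ (l + m) ^ (i + j) := by
  rw [add_pow]
  have := Finset.single_le_sum (f := fun k => l ^ k * m ^ (i + j - k) * ((i + j).choose k : ℝ))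
    (s := Finset.range (i + j + 1)) (fun k _ => by positivity)
    (Finset.mem_range.mpr (show i < i + j + 1 by omega))
  simp only [add_tsub_cancel_left] at this
  linarith

theorem UB.comb {l m c d : ℝ} {u v : List α} (hu : UB l c u) (hv : UB m d v) (hl : 0 ≤ l)
    (hm : 0 ≤ m) (hc : 0 ≤ c) (hd : 0 ≤ d) : UB (l + m) (c * d) (u ++ v) := by
  unfold UB at *
  have h1 : (B (u ++ v) : ℝ) ≤ ((u.length + v.length).choose u.length : ℝ) * B u * B v := by
    exact_mod_cast B_append_le u v
  have h2 := choose_mul_le hl hm u.length v.length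
  rw [List.length_append]
  calc (B (u ++ v) : ℝ) ≤ _ := h1
    _ ≤ ((u.length + v.length).choose u.length : ℝ) * (c * l ^ u.length) * (d * m ^ v.length) := by
        gcongr
    _ = c * d * (((u.length + v.length).choose u.length : ℝ) * l ^ u.length * m ^ v.length) := by
        ring
    _ ≤ _ := by gcongr

theorem UB.mono {l m c d : ℝ} {u : List α} (hu : UB l c u) (hl : 0 ≤ l) (hc : 0 ≤ c)
    (h1 : l ≤ m) (h2 : c ≤ d) : UB m d u := by
  unfold UB at *
  refine hu.trans ?_
  have : 0 ≤ d := hc.trans h2
  gcongr

theorem UB_short {ε : ℝ} (h0 : 0 < ε) (h1 : ε ≤ 1) {L : ℕ} {u : List α} (hu : u.length ≤ L) :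
    UB ε (L.factorial / ε ^ L) u := by
  unfold UB
  have h2 : (B u : ℝ) ≤ L.factorial := by
    exact_mod_cast (B_le_fact u).trans (Nat.factorial_le hu)
  have h3 : ε ^ L ≤ ε ^ u.length := pow_le_pow_of_le_one h0.le h1 hu
  rw [div_mul_eq_mul_div, le_div_iff₀ (by positivity)]
  gcongr

theorem one_le_M {ε : ℝ} (h0 : 0 < ε) (h1 : ε ≤ 1) (L : ℕ) : (1 : ℝ) ≤ L.factorial / ε ^ L := by
  rw [le_div_iff₀ (by positivity), one_mul]
  exact (pow_le_one₀ h0.le h1).trans (by exact_mod_cast L.factorial_pos)

/-- All letters of `l` lie in `P`. -/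
def Over (P : Finset α) (l : List α) : Prop := ∀ e ∈ l, e ∈ P

omit [DecidableEq α] in
theorem Over.append {P : Finset α} {u v : List α} (hu : Over P u) (hv : Over P v) :
    Over P (u ++ v) := fun e he => (List.mem_append.mp he).elim (hu e) (hv e)

theorem over_alt (a b : α) (n : ℕ) : Over {a, b} (alt a b n) := fun e he => by
  simpa using mem_alt he

theorem other {P : Finset α} (hP : P.card = 2) {a : α} (ha : a ∈ P) :
    ∃ b, a ≠ b ∧ P = {a, b} := by
  obtain ⟨x, y, hxy, rfl⟩ := Finset.card_eq_two.mp hP
  rcases Finset.mem_insert.mp ha with rfl | ha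
  · exact ⟨y, hxy, rfl⟩
  · obtain rfl := Finset.mem_singleton.mp ha
    exact ⟨x, hxy.symm, Finset.pair_comm _ _⟩

theorem over_eq_alt {a b : α} {u : List α} (hp : Pr u) (h : Over {a, b} u) :
    u = alt a b u.length ∨ u = alt b a u.length := by
  cases u with
  | nil => exact Or.inl rfl
  | cons c t =>
    have ht : ∀ d ∈ t, d = a ∨ d = b := fun d hd => by simpa using h d (by simp [hd])
    have hc : c = a ∨ c = b := by simpa using h c (by simp)
    rcases hc with rfl | rfl
    · exact Or.inl (eq_alt hp ht)
    · exact Or.inr (eq_alt hp fun d hd => (ht d hd).symm)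

theorem UB_over {P : Finset α} (hP : P.card = 2) {u : List α} (hp : Pr u) (h : Over P u) :
    UB 2 1 u := by
  obtain ⟨a, b, -, rfl⟩ := Finset.card_eq_two.mp hP
  unfold UB
  rw [one_mul]
  rcases over_eq_alt hp h with e | e
  · have := B_alt_le a b u.length
    rw [← e] at this
    exact_mod_cast this
  · have := B_alt_le b a u.length
    rw [← e] at this
    exact_mod_cast this

theorem D_lt_of_head {P : Finset α} {u : List α} (hu : Over P u) (hl : 2 ≤ u.length) {z : α}
    (hz : z ∉ P) (t : List α) : D u + D (z :: t) < D (u ++ z :: t) := by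
  induction u with
  | nil => simp at hl
  | cons a u ih =>
    by_cases h : 2 ≤ u.length
    · have := ih (fun e he => hu e (by simp [he])) h
      simp only [List.cons_append, D]
      rw [df_append h]
      simp only [D] at this
      omega
    · obtain ⟨b, rfl⟩ : ∃ b, u = [b] := List.length_eq_one_iff.mp (by simp at hl; omega)
      have : a ≠ z := fun h => hz (h ▸ hu a (by simp))
      simp [D, df, this]
      omega

theorem first_block {x : List α} (hp : Pr x) (hl : 2 ≤ x.length) :
    ∃ (P : Finset α) (u x' : List α), P.card = 2 ∧ x = u ++ x' ∧ Over P u ∧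
      (∀ z ∈ x'.head?, z ∉ P) ∧ (x' = [] ∨ D x' < D x) := by
  match x, hl with
  | a :: b :: t, _ =>
    have hab : a ≠ b := (List.isChain_cons_cons.mp hp).1
    have hov : Over {a, b} (a :: b :: t.takeWhile (· ∈ ({a, b} : Finset α))) := by
      intro e he
      rcases List.mem_cons.mp he with rfl | he
      · simp
      rcases List.mem_cons.mp he with rfl | he
      · simp
      simpa using List.mem_takeWhile_imp he
    have hh : ∀ z ∈ (t.dropWhile (· ∈ ({a, b} : Finset α))).head?, z ∉ ({a, b} : Finset α) := by
      intro z hz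
      have := List.head?_dropWhile_not (fun e => decide (e ∈ ({a, b} : Finset α))) t
      rw [Option.mem_def.mp hz] at this
      simpa using this
    have he : a :: b :: t = (a :: b :: t.takeWhile (· ∈ ({a, b} : Finset α))) ++
        t.dropWhile (· ∈ ({a, b} : Finset α)) := by simp
    refine ⟨{a, b}, _, _, Finset.card_pair hab, he, hov, hh, ?_⟩
    rcases hd : t.dropWhile (· ∈ ({a, b} : Finset α)) with _ | ⟨z, s⟩
    · exact Or.inl rfl
    · right
      rw [hd] at hh he
      have := D_lt_of_head hov (by simp) (hh z rfl) s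
      rw [← he] at this
      omega

/-- The word contains `k` separated alternating runs of length at least `L`. -/
def Runs (L : ℕ) : ℕ → List α → Prop
  | 0, _ => True
  | k + 1, x => ∃ (pre A post : List α) (P : Finset α), x = pre ++ A ++ post ∧ P.card = 2 ∧
      L ≤ A.length ∧ Over P A ∧ (∀ z ∈ post.head?, z ∉ P) ∧ Runs L k post

omit [DecidableEq α] in
theorem Runs.prepend {L k : ℕ} {x : List α} (h : Runs L k x) (u : List α) : Runs L k (u ++ x) := by
  cases k with
  | zero => trivial
  | succ k =>
    obtain ⟨pre, A, post, P, rfl, h⟩ := h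
    exact ⟨u ++ pre, A, post, P, by simp, h⟩

theorem UB_runs {ε : ℝ} (h0 : 0 < ε) (h1 : ε ≤ 1) {L : ℕ} (hL : 2 ≤ L) (K k : ℕ) {x : List α}
    (hp : Pr x) (hD : D x < K) (hR : ¬ Runs L (k + 1) x) :
    UB (2 * k + ε * K) ((L.factorial / ε ^ L) ^ K) x := by
  have hM := one_le_M h0 h1 L
  induction K generalizing k x with
  | zero => omega
  | succ K ih =>
    have hk : (0 : ℝ) ≤ k := Nat.cast_nonneg _
    have hK : (0 : ℝ) ≤ K := Nat.cast_nonneg _
    have hεK : 0 ≤ ε * K := by positivity
    have hMK : (1 : ℝ) ≤ (L.factorial / ε ^ L) ^ K := one_le_pow₀ hM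
    by_cases hs : x.length < L
    · refine (UB_short h0 h1 hs.le).mono h0.le (by positivity) (by push_cast; nlinarith) ?_
      rw [pow_succ]
      nlinarith
    obtain ⟨P, u, x', hP, rfl, hu, hz, hx'⟩ := first_block hp (by omega)
    by_cases hul : u.length < L
    · have hx'' : D x' < D (u ++ x') := hx'.resolve_left (by rintro rfl; simp at hs; omega)
      have := (UB_short h0 h1 hul.le).comb (ih k hp.right_of_append (by omega)
        fun h => hR (h.prepend u)) h0.le (by positivity) (by positivity) (by positivity)
      exact this.mono (by positivity) (by positivity) (by push_cast; linarith)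
        (by rw [pow_succ'])
    · cases k with
      | zero => exact absurd ⟨[], u, x', P, by simp, hP, by omega, hu, hz, trivial⟩ hR
      | succ k =>
        have h2 := UB_over hP hp.left_of_append hu
        rcases hx' with rfl | hx'
        · rw [List.append_nil]
          exact h2.mono (by norm_num) (by norm_num) (by push_cast at hk ⊢; nlinarith)
            (one_le_pow₀ hM)
        · have := h2.comb (ih k hp.right_of_append (by omega)
            fun h => hR ⟨[], u, x', P, by simp, hP, by omega, hu, hz, h⟩) (by norm_num)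
            (by positivity) (by norm_num) (by positivity)
          exact this.mono (by positivity) (by positivity) (by push_cast; linarith)
            (by rw [pow_succ]; nlinarith)

/-- The alternating word over `a, b` starting with `b` if `e` and with `a` otherwise. -/
def altB (a b : α) (e : Bool) (n : ℕ) : List α :=
  alt (bif e then b else a) (bif e then a else b) n

omit [DecidableEq α] in
@[simp] theorem length_altB (a b : α) (e : Bool) (n : ℕ) : (altB a b e n).length = n :=
  length_alt _ _ _

omit [DecidableEq α] in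
theorem S_altB_le {h : List α → ℕ} (H : ∀ y, ¬ Pr y → h y = 0) (a b : α) (e : Bool) (n : ℕ) :
    S (altB a b e (n + 1)) h ≤ h (altB a b e n) + if n = 0 then 0 else h (altB a b (!e) n) := by
  cases n with
  | zero => simp [altB, alt, S]
  | succ n => rw [altB, S_alt H, add_comm]; cases e <;> simp [altB]

omit [DecidableEq α] in
theorem S_altB_ge (h : List α → ℕ) (a b : α) (e : Bool) (n : ℕ) :
    h (altB a b e (n + 1)) + h (altB a b (!e) (n + 1)) ≤ S (altB a b e (n + 2)) h := by
  refine le_trans (le_of_eq ?_) (S_alt_ge _ _ n h)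
  rw [add_comm]
  cases e <;> simp [altB]

theorem over_eq_altB {a b : α} {u : List α} (hp : Pr u) (h : Over {a, b} u) :
    ∃ e, u = altB a b e u.length :=
  (over_eq_alt hp h).elim (fun h => ⟨false, h⟩) (fun h => ⟨true, h⟩)

omit [DecidableEq α] in
theorem pr_reverse {x : List α} : Pr x.reverse ↔ Pr x := by
  rw [Pr, List.isChain_reverse]
  exact ⟨fun h => h.imp fun _ _ h => h.symm, fun h => h.imp fun _ _ h => h.symm⟩

theorem over_eq_rev_altB {a b : α} {u : List α} (hp : Pr u) (h : Over {a, b} u) :
    ∃ e, u = (altB a b e u.length).reverse := by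
  obtain ⟨e, he⟩ := over_eq_altB (pr_reverse.mpr hp) (fun c hc => h c (by simpa using hc))
  exact ⟨e, by rw [← List.length_reverse, ← he, List.reverse_reverse]⟩

theorem B_reverse_altB_le (a b : α) (e : Bool) (n : ℕ) : B (altB a b e n).reverse ≤ 2 ^ n := by
  rw [altB, reverse_alt]
  split_ifs <;> exact B_alt_le _ _ _

theorem root2_bound (a b c : α) (n : ℕ) : ∀ (i j : ℕ) (e f : Bool), i + j = n →
    (B ((altB a b e i).reverse ++ altB c b f j) : ℝ) ≤
      (if e = false ∧ f = false then 3 / 2 else 1) * (7 / 2) ^ n := by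
  induction n with
  | zero =>
    intro i j e f h
    obtain rfl : i = 0 := by omega
    obtain rfl : j = 0 := by omega
    split_ifs <;> norm_num [altB, alt]
  | succ n ih =>
    intro i j e f h
    have hw : ∀ m : ℕ, ((2 ^ m : ℕ) : ℝ) ≤
        (if e = false ∧ f = false then 3 / 2 else 1) * (7 / 2) ^ m := by
      intro m
      have : (2 : ℝ) ^ m ≤ (7 / 2) ^ m := by gcongr; norm_num
      have h0 : (0 : ℝ) ≤ (7 / 2) ^ m := by positivity
      push_cast
      split_ifs <;> linarith
    have hz : ∀ i j : ℕ, B ((altB a b true (i + 1)).reverse ++ altB c b true (j + 1)) = 0 := by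
      intro i j
      apply B_of_not_pr
      simp [altB, alt, List.isChain_append_cons_cons]
    rcases i with _ | i
    · obtain rfl : j = n + 1 := by omega
      refine le_trans ?_ (hw _)
      simpa [altB, alt] using (Nat.cast_le (α := ℝ)).mpr (B_alt_le _ _ (n + 1))
    rcases j with _ | j
    · obtain rfl : i = n := by omega
      refine le_trans ?_ (hw _)
      have := (Nat.cast_le (α := ℝ)).mpr (B_reverse_altB_le a b e (i + 1))
      simpa [altB, alt] using this
    have h1 := B_le_S (x := (altB a b e (i + 1)).reverse ++ altB c b f (j + 1))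
      (by simp [altB, alt])
    rw [S_append, S_reverse] at h1
    have h2 := S_altB_le (h := fun y => B (y.reverse ++ altB c b f (j + 1)))
      (fun y hy => B_of_not_pr fun hp => hy (pr_reverse.mp hp.left_of_append)) a b e i
    have h3 := S_altB_le (h := fun y => B ((altB a b e (i + 1)).reverse ++ y))
      (fun y hy => B_of_not_pr fun hp => hy hp.right_of_append) c b f j
    have h4 := (Nat.cast_le (α := ℝ)).mpr (h1.trans (add_le_add h2 h3))
    have i1 := ih i (j + 1) e f (by omega)
    have i2 := ih i (j + 1) (!e) f (by omega)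
    have i3 := ih (i + 1) j e f (by omega)
    have i4 := ih (i + 1) j e (!f) (by omega)
    have h0 : (0 : ℝ) ≤ (7 / 2) ^ n := by positivity
    rw [pow_succ]
    push_cast at h4
    cases e <;> cases f
    · simp only [Bool.not_false, and_self, if_true, Bool.true_eq_false, false_and, and_false,
        if_false] at *
      split_ifs at h4 <;> linarith
    · simp only [Bool.not_false, Bool.not_true, and_self, if_true, Bool.true_eq_false,
        and_false, if_false] at *
      rcases i with _ | i
      · split_ifs at h4 <;> first | linarith | omega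
      · rw [hz] at h4
        split_ifs at h4 <;> first | linarith | omega | (push_cast at h4; linarith)
    · simp only [Bool.not_false, Bool.not_true, and_self, if_true, Bool.true_eq_false,
        false_and, if_false] at *
      rcases j with _ | j
      · split_ifs at h4 <;> first | linarith | omega
      · rw [hz] at h4
        split_ifs at h4 <;> first | linarith | omega | (push_cast at h4; linarith)
    · rw [hz]
      simp only [Bool.true_eq_false, and_self, if_false]
      push_cast
      linarith

theorem UB_root2 {a b c : α} {u v : List α} (hp : Pr (u ++ v)) (hu : Over {a, b} u)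
    (hv : Over {c, b} v) : UB (7 / 2) (3 / 2) (u ++ v) := by
  obtain ⟨e, he⟩ := over_eq_rev_altB hp.left_of_append hu
  obtain ⟨f, hf⟩ := over_eq_altB hp.right_of_append hv
  have := root2_bound a b c _ u.length v.length e f rfl
  rw [← he, ← hf] at this
  unfold UB
  rw [List.length_append]
  refine this.trans ?_
  have h0 : (0 : ℝ) ≤ (7 / 2) ^ (u.length + v.length) := by positivity
  split_ifs <;> linarith

/-- Both runs adjacent to the connector `w` can end with either letter. -/
def Free (P Q : Finset α) (w : List α) : Prop := ∀ e ∈ P, ∀ f ∈ Q, Pr (e :: w ++ [f])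

theorem junction {P Q : Finset α} (hP : P.card = 2) (hQ : Q.card = 2) {w₀ C : List α}
    (hp : Pr (w₀ ++ C)) (hC : Over Q C) (hC0 : C ≠ []) (hz : ∀ z ∈ (w₀ ++ C).head?, z ∉ P) :
    ∃ w v, w₀ = w ++ v ∧ Over Q v ∧ (Free P Q w ∨ (w = [] ∧ ∃ a b c, a ≠ b ∧ c ≠ a ∧ c ≠ b ∧
      P = {a, b} ∧ Q = {c, b} ∧ (v ++ C).head? = some c)) := by
  have key : ∃ w v, w₀ = w ++ v ∧ Over Q v ∧ ∀ z ∈ w.getLast?, z ∉ Q := by
    clear hp hz
    induction w₀ using List.reverseRecOn with
    | nil => exact ⟨[], [], rfl, fun _ h => by simp at h, by simp⟩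
    | append_singleton l z ih =>
      by_cases hzQ : z ∈ Q
      · obtain ⟨w, v, rfl, h1, h2⟩ := ih
        exact ⟨w, v ++ [z], by simp, h1.append (fun e he => by simp at he; exact he ▸ hzQ), h2⟩
      · exact ⟨l ++ [z], [], by simp, fun _ h => by simp at h, by simpa using hzQ⟩
  obtain ⟨w, v, rfl, hv, hw⟩ := key
  refine ⟨w, v, rfl, hv, ?_⟩
  cases w with
  | cons z t =>
    left
    intro e he f hf
    have h1 : z ∉ P := hz z (by simp)
    have h2 : Pr (z :: t) := hp.left_of_append.left_of_append
    refine List.isChain_cons_cons.mpr ⟨fun h => h1 (h ▸ he), ?_⟩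
    change Pr ((z :: t) ++ [f])
    refine List.isChain_append.mpr ⟨h2, List.isChain_singleton _, fun x hx y hy => ?_⟩
    obtain rfl : f = y := by simpa using hy
    exact fun h => hw x hx (h ▸ hf)
  | nil =>
    by_cases hd : ∀ e ∈ P, e ∉ Q
    · left
      intro e he f hf
      simpa using fun h : e = f => hd e he (h ▸ hf)
    · right
      push Not at hd
      obtain ⟨b, hbP, hbQ⟩ := hd
      obtain ⟨a, hab, rfl⟩ := other hP hbP
      obtain ⟨c, hcb, rfl⟩ := other hQ hbQ
      obtain ⟨z, t, hzt⟩ := List.exists_cons_of_ne_nil (l := v ++ C) (by simp [hC0])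
      have h1 : z ∉ ({b, a} : Finset α) := hz z (by simp [hzt])
      have h2 : z ∈ ({b, c} : Finset α) := (hv.append hC) z (by simp [hzt])
      simp only [Finset.mem_insert, Finset.mem_singleton, not_or] at h1 h2
      obtain rfl : z = c := h2.resolve_left h1.1
      exact ⟨rfl, a, b, z, hab.symm, h1.2, h1.1, Finset.pair_comm _ _, Finset.pair_comm _ _,
        by simp [hzt]⟩

/-- The word contains a free junction between two long runs. -/
def FreeJ (L : ℕ) (x : List α) : Prop :=
  ∃ (pre A w C post : List α) (P Q : Finset α), x = pre ++ (A ++ w ++ C) ++ post ∧ P.card = 2 ∧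
    Q.card = 2 ∧ L ≤ A.length ∧ L ≤ C.length ∧ Over P A ∧ Over Q C ∧ Free P Q w

theorem UB_nofree {ε : ℝ} (h0 : 0 < ε) (h1 : ε ≤ 1) {L : ℕ} (hL : 2 ≤ L) (K : ℕ) {x : List α}
    (hp : Pr x) (hD : D x < K) (hR : ¬ Runs L 3 x) (hF : ¬ FreeJ L x) :
    UB (7 / 2 + ε * K) (3 / 2 * (L.factorial / ε ^ L) ^ K) x := by
  have hM := one_le_M h0 h1 L
  induction K generalizing x with
  | zero => omega
  | succ K ih =>
    have hK : (0 : ℝ) ≤ K := Nat.cast_nonneg _
    have hεK : 0 ≤ ε * K := by positivity
    have hMK : (1 : ℝ) ≤ (L.factorial / ε ^ L) ^ K := one_le_pow₀ hM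
    have hMK' : (1 : ℝ) ≤ (L.factorial / ε ^ L) ^ (K + 1) := one_le_pow₀ hM
    by_cases hs : x.length < L
    · refine (UB_short h0 h1 hs.le).mono h0.le (by positivity) (by push_cast; nlinarith) ?_
      rw [pow_succ]
      nlinarith
    obtain ⟨P, u, x', hP, rfl, hu, hz, hx'⟩ := first_block hp (by omega)
    by_cases hul : u.length < L
    · have hx'' : D x' < D (u ++ x') := hx'.resolve_left (by rintro rfl; simp at hs; omega)
      have := (UB_short h0 h1 hul.le).comb (ih hp.right_of_append (by omega)
        (fun h => hR (h.prepend u)) (by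
          rintro ⟨pre, A, w, C, post, P, Q, rfl, h⟩
          exact hF ⟨u ++ pre, A, w, C, post, P, Q, by simp, h⟩))
        h0.le (by positivity) (by positivity) (by positivity)
      exact this.mono (by positivity) (by positivity) (by push_cast; linarith)
        (by rw [pow_succ']; linarith)
    have h2 := UB_over hP hp.left_of_append hu
    have hDx' : D x' < K + 1 := lt_of_le_of_lt (by have := D_append_ge u x'; omega) hD
    by_cases hR1 : Runs L 1 x'
    · obtain ⟨pre, A, post, Q, rfl, hQ, hA, hAQ, hpost, -⟩ := hR1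
      have hA0 : A ≠ [] := by rintro rfl; simp at hA; omega
      obtain ⟨w, v, rfl, hv, hj⟩ := junction hP hQ hp.right_of_append.left_of_append hAQ hA0
        (fun z hz' => hz z (by
          rw [List.head?_append, Option.mem_def.mp hz']; rfl))
      rcases hj with hj | ⟨rfl, a, b, c, -, -, -, rfl, rfl, -⟩
      · exact absurd ⟨[], u, w, v ++ A, post, P, Q, by simp, hP, hQ, by omega,
          by simp; omega, hu, hv.append hAQ, hj⟩ hF
      · have e : u ++ ([] ++ v ++ A ++ post) = (u ++ (v ++ A)) ++ post := by simp
        rw [e] at hp hD ⊢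
        have h3 := UB_root2 hp.left_of_append hu (hv.append hAQ)
        have h4 := UB_runs h0 h1 hL (K + 1) 0 hp.right_of_append
          (lt_of_le_of_lt (by have := D_append_ge (u ++ (v ++ A)) post; omega) hD)
          (fun h => hR ⟨[], u, _, _, by simp, hP, by omega, hu, hz,
            [] ++ v, A, post, _, rfl, hQ, hA, hAQ, hpost, h⟩)
        exact (h3.comb h4 (by norm_num) (by positivity) (by norm_num) (by positivity)).mono
          (by positivity) (by positivity) (by push_cast; linarith) le_rfl
    · have h4 := UB_runs h0 h1 hL (K + 1) 0 hp.right_of_append hDx' hR1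
      exact (h2.comb h4 (by norm_num) (by positivity) (by norm_num) (by positivity)).mono
        (by positivity) (by positivity) (by push_cast; linarith) (by linarith)

end Pool.Agent.P.MP_f3d782_pr
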