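import Mathlib
import Pool.Agent.P.MP_f3d782_pr.Upper

set_option autoImplicit false
set_option linter.unusedSectionVars false

namespace Pool.Agent.P.MP_f3d782_pr

variable {α σ τ : Type}

/-- A graded system of states with predecessor lists. -/
structure Sys (σ : Type) where
  lev : σ → ℕ
  pred : σ → List σ
  hp : ∀ s, ∀ t ∈ pred s, lev t + 1 = lev s

def Sys.Paths (X : Sys σ) (p : σ → ℕ) : Prop :=
  ∀ s, p s ≤ if X.lev s = 0 then 1 else ((X.pred s).map p).sum

def Sys.Real (X : Sys σ) (w : σ → List α) : Prop :=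
  ∀ s (h : List α → ℕ), ((X.pred s).map fun t => h (w t)).sum ≤ S (w s) h

def Sys.prod (X : Sys σ) (Y : Sys τ) : Sys (σ × τ) where
  lev s := X.lev s.1 + Y.lev s.2
  pred s := (X.pred s.1).map (fun a => (a, s.2)) ++ (Y.pred s.2).map (fun b => (s.1, b))
  hp s t ht := by
    simp only [List.mem_append, List.mem_map] at ht
    rcases ht with ⟨a, ha, rfl⟩ | ⟨b, hb, rfl⟩
    · have := X.hp _ _ ha
      simp only
      omega
    · have := Y.hp _ _ hb
      simp only
      omega

theorem Sys.Real.prod {X : Sys σ} {Y : Sys τ} {w : σ → List α} {w' : τ → List α}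
    (hX : X.Real w) (hY : Y.Real w') (mid : List α) :
    (X.prod Y).Real fun s => w s.1 ++ mid ++ w' s.2 := by
  intro s h
  have h1 := hX s.1 fun y => h (y ++ mid ++ w' s.2)
  have h2 := hY s.2 fun y => h (w s.1 ++ mid ++ y)
  simp only [Sys.prod, List.map_append, List.map_map, List.sum_append, S_append,
    Function.comp_def]
  omega

theorem Sys.Real.reverse {X : Sys σ} {w : σ → List α} (hX : X.Real w) :
    X.Real fun s => (w s).reverse := by
  intro s h
  rw [S_reverse]
  exact hX s fun y => h y.reverse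

theorem Sys.pred_eq_nil (X : Sys σ) {s : σ} (h : X.lev s = 0) : X.pred s = [] :=
  List.eq_nil_iff_forall_not_mem.mpr fun t ht => by have := X.hp s t ht; omega

theorem Sys.Paths.prod {X : Sys σ} {Y : Sys τ} {p : σ → ℕ} {q : τ → ℕ}
    (hX : X.Paths p) (hY : Y.Paths q) :
    (X.prod Y).Paths fun s => (X.lev s.1 + Y.lev s.2).choose (X.lev s.1) * p s.1 * q s.2 := by
  rintro ⟨s, t⟩
  have h1 := hX s
  have h2 := hY t
  simp only [Sys.prod, List.map_append, List.map_map, List.sum_append, Function.comp_def]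
  have e1 : ∀ i, X.lev s = i + 1 → ((X.pred s).map fun a =>
      (X.lev a + Y.lev t).choose (X.lev a) * p a * q t).sum =
      (i + Y.lev t).choose i * ((X.pred s).map p).sum * q t := by
    intro i hi
    rw [← List.sum_map_mul_left, ← List.sum_map_mul_right]
    congr 1
    refine List.map_congr_left fun a ha => ?_
    have : X.lev a = i := by have := X.hp _ _ ha; omega
    rw [this]
  have e2 : ∀ j, Y.lev t = j + 1 → ((Y.pred t).map fun b =>
      (X.lev s + Y.lev b).choose (X.lev s) * p s * q b).sum =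
      (X.lev s + j).choose (X.lev s) * p s * ((Y.pred t).map q).sum := by
    intro j hj
    rw [← List.sum_map_mul_left]
    congr 1
    refine List.map_congr_left fun b hb => ?_
    have : Y.lev b = j := by have := Y.hp _ _ hb; omega
    rw [this]
  rcases hi : X.lev s with _ | i <;> rcases hj : Y.lev t with _ | j
  · simp only [hi, hj, if_true] at h1 h2 ⊢
    simpa using Nat.mul_le_mul h1 h2
  · have := e2 j hj
    simp only [hi, hj] at h1 h2 this ⊢
    rw [if_neg (by omega)] at h2 ⊢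
    rw [this, X.pred_eq_nil hi]
    simpa using Nat.mul_le_mul_left _ h2
  · have := e1 i hi
    simp only [hi, hj] at h1 h2 this ⊢
    rw [if_neg (by omega)] at h1 ⊢
    rw [this, Y.pred_eq_nil hj]
    simpa using Nat.mul_le_mul_right _ h1
  · have t1 := e1 i hi
    have t2 := e2 j hj
    simp only [hi, hj] at h1 h2 t1 t2 ⊢
    rw [if_neg (by omega)] at h1 h2 ⊢
    rw [t1, t2, show i + 1 + (j + 1) = (i + (j + 1)) + 1 by omega, Nat.choose_succ_succ',
      show i + 1 + j = i + (j + 1) by omega, add_mul, add_mul]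
    gcongr

theorem Sys.realize [DecidableEq α] {X : Sys σ} {p : σ → ℕ} {w : σ → List α} (hP : X.Paths p)
    (hR : X.Real w) (hpr : ∀ s, p s ≠ 0 → Pr (w s)) (s : σ) : p s ≤ B (w s) := by
  induction hn : X.lev s generalizing s with
  | zero =>
    by_cases h0 : p s = 0
    · omega
    · have := hP s
      rw [if_pos hn] at this
      exact this.trans (B_pos (hpr s h0))
  | succ n ih =>
    by_cases h0 : p s = 0
    · omega
    · have := hP s
      rw [if_neg (by omega)] at this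
      refine this.trans (le_trans ?_ ((hR s B).trans (S_B_le (hpr s h0))))
      exact List.sum_le_sum fun t ht => ih t (by have := X.hp _ _ ht; omega)

/-- An alternating run that can be shortened at both ends. -/
def run : Sys (Bool × ℕ) where
  lev s := s.2
  pred s := match s.2 with
    | 0 => []
    | m + 1 => [(s.1, m), (!s.1, m)]
  hp := by
    rintro ⟨e, _ | m⟩ t ht
    · simp at ht
    · simp only [List.mem_cons, List.not_mem_nil, or_false] at ht
      rcases ht with rfl | rfl <;> rfl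

theorem run_real (a b : α) : run.Real fun s => altB a b s.1 (s.2 + 1) := by
  rintro ⟨e, _ | m⟩ h
  · simp [run]
  · simpa [run] using S_altB_ge h a b e m

theorem run_paths : run.Paths fun s => 2 ^ s.2 := by
  rintro ⟨e, _ | m⟩
  · simp [run]
  · simp [run, pow_succ, mul_two]

/-- Path counts for two runs whose inner ends may not both be in the state `true`. -/
def beta : ℕ → ℕ → Bool → Bool → ℕ
  | 0, 0, e, f => if e && f then 0 else 1
  | i + 1, 0, e, f => if e && f then 0 else beta i 0 e f + beta i 0 (!e) f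
  | 0, j + 1, e, f => if e && f then 0 else beta 0 j e f + beta 0 j e (!f)
  | i + 1, j + 1, e, f => if e && f then 0 else
      (beta i (j + 1) e f + beta i (j + 1) (!e) f) + (beta (i + 1) j e f + beta (i + 1) j e (!f))

theorem beta_tt (i j : ℕ) : beta i j true true = 0 := by
  cases i <;> cases j <;> simp [beta]

theorem beta_paths : (run.prod run).Paths fun s => beta s.1.2 s.2.2 s.1.1 s.2.1 := by
  rintro ⟨⟨e, _ | i⟩, ⟨f, _ | j⟩⟩ <;> simp only [Sys.prod, run, beta] <;> split_ifs <;>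
    simp_all [add_assoc]

theorem beta_mono_left (i j : ℕ) (e f : Bool) : beta i j e f ≤ beta (i + 1) j e f := by
  by_cases h : (e && f) = true
  · obtain ⟨rfl, rfl⟩ := Bool.and_eq_true_iff.mp h
    simp [beta_tt]
  · cases j <;> (rw [beta.eq_def (i + 1)]; simp only [h]; simp; try omega)

theorem beta_mono_right (i j : ℕ) (e f : Bool) : beta i j e f ≤ beta i (j + 1) e f := by
  by_cases h : (e && f) = true
  · obtain ⟨rfl, rfl⟩ := Bool.and_eq_true_iff.mp h
    simp [beta_tt]
  · cases i <;> (rw [beta.eq_def _ (j + 1)]; simp only [h]; simp; try omega)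

theorem beta_mono {i j i' j' : ℕ} (hi : i ≤ i') (hj : j ≤ j') (e f : Bool) :
    beta i j e f ≤ beta i' j' e f := by
  induction hi with
  | refl =>
    induction hj with
    | refl => exact le_rfl
    | step _ ih => exact ih.trans (beta_mono_right _ _ _ _)
  | step _ ih => exact ih.trans (beta_mono_left _ _ _ _)

def Sb (n : ℕ) (e f : Bool) : ℕ := ∑ p ∈ Finset.HasAntidiagonal.antidiagonal n, beta p.1 p.2 e f

theorem Sb_succ (n : ℕ) {e f : Bool} (h : ¬ (e && f) = true) :
    Sb (n + 1) e f = (Sb n e f + Sb n (!e) f) + (Sb n e f + Sb n e (!f)) := by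
  let Lp : ℕ × ℕ → ℕ := fun p => match p.1 with
    | 0 => 0
    | i + 1 => beta i p.2 e f + beta i p.2 (!e) f
  let Rp : ℕ × ℕ → ℕ := fun p => match p.2 with
    | 0 => 0
    | j + 1 => beta p.1 j e f + beta p.1 j e (!f)
  have h1 : Sb (n + 1) e f = ∑ p ∈ Finset.HasAntidiagonal.antidiagonal (n + 1), (Lp p + Rp p) := by
    refine Finset.sum_congr rfl ?_
    rintro ⟨_ | i, _ | j⟩ hp
    · simp at hp
    · simp [Lp, Rp, beta, h]
    · simp [Lp, Rp, beta, h]
    · simp [Lp, Rp, beta, h]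
  rw [h1, Finset.sum_add_distrib, Finset.Nat.sum_antidiagonal_succ (f := Lp),
    Finset.Nat.sum_antidiagonal_succ' (f := Rp)]
  simp [Lp, Rp, Sb, Finset.sum_add_distrib]

theorem Sb_tt (n : ℕ) : Sb n true true = 0 := by simp [Sb, beta_tt]

theorem Sb_growth (n : ℕ) : (17 / 5 : ℝ) ^ n ≤ Sb n false false ∧
    (17 / 5 : ℝ) ^ n ≤ 7 / 5 * Sb n true false ∧ (17 / 5 : ℝ) ^ n ≤ 7 / 5 * Sb n false true := by
  induction n with
  | zero => norm_num [Sb, beta]
  | succ n ih =>
    rw [Sb_succ n (e := false) (f := false) (by simp), Sb_succ n (e := true) (f := false) (by simp),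
      Sb_succ n (e := false) (f := true) (by simp), pow_succ]
    have h0 : (0 : ℝ) ≤ (17 / 5) ^ n := by positivity
    simp only [Bool.not_false, Bool.not_true, Sb_tt]
    push_cast
    refine ⟨?_, ?_, ?_⟩ <;> linarith [ih.1, ih.2.1, ih.2.2]

theorem beta_growth (n : ℕ) {e f : Bool} (h : ¬ (e && f) = true) :
    ∃ i j, i + j = n ∧ (17 / 5 : ℝ) ^ n ≤ 7 / 5 * (n + 1) * beta i j e f := by
  obtain ⟨p, hp, hmax⟩ := Finset.exists_max_image (Finset.HasAntidiagonal.antidiagonal n)
    (fun p => beta p.1 p.2 e f) ⟨(0, n), by simp⟩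
  refine ⟨p.1, p.2, by simpa using hp, ?_⟩
  have h1 : Sb n e f ≤ (n + 1) * beta p.1 p.2 e f := by
    have := Finset.sum_le_card_nsmul _ _ _ hmax
    simpa [Sb] using this
  have h2 : (Sb n e f : ℝ) ≤ (n + 1) * beta p.1 p.2 e f := by exact_mod_cast h1
  have h3 : (17 / 5 : ℝ) ^ n ≤ 7 / 5 * Sb n e f := by
    have := Sb_growth n
    have h0 : (0 : ℝ) ≤ (17 / 5) ^ n := by positivity
    cases e <;> cases f
    · linarith [this.1]
    · exact this.2.2
    · exact this.2.1
    · simp at h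
  linarith

theorem exists_choose (l m : ℝ) (n : ℕ) :
    ∃ i j, i + j = n ∧ (l + m) ^ n ≤ (n + 1) * (((i + j).choose i : ℝ) * l ^ i * m ^ j) := by
  obtain ⟨k, hk, hmax⟩ := Finset.exists_max_image (Finset.range (n + 1))
    (fun k => l ^ k * m ^ (n - k) * (n.choose k : ℝ)) ⟨0, by simp⟩
  have hk' : k ≤ n := by simpa [Nat.lt_succ_iff] using hk
  refine ⟨k, n - k, by omega, ?_⟩
  have := Finset.sum_le_card_nsmul _ _ _ hmax
  rw [← add_pow] at this
  rw [show k + (n - k) = n by omega]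
  simp only [Finset.card_range, nsmul_eq_mul] at this
  push_cast at this
  linarith

theorem choose_mono {a b a' b' : ℕ} (h1 : a ≤ a') (h2 : b ≤ b') :
    (a + b).choose a ≤ (a' + b').choose a' := by
  calc (a + b).choose a ≤ (a + b').choose a := Nat.choose_le_choose _ (by omega)
    _ = (a + b').choose b' := Nat.choose_symm_add
    _ ≤ (a' + b').choose b' := Nat.choose_le_choose _ (by omega)
    _ = _ := Nat.choose_symm_add.symm

theorem pr_glue {U w V : List α} (hU : Pr U) (hV : Pr V) {x y : α} (hx : U.getLast? = some x)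
    (hy : V.head? = some y) (h : Pr (x :: w ++ [y])) : Pr (U ++ w ++ V) := by
  obtain ⟨U', rfl⟩ := List.getLast?_eq_some_iff.mp hx
  obtain ⟨V', rfl⟩ := List.head?_eq_some_iff.mp hy
  have : U' ++ [x] ++ w ++ y :: V' = U' ++ x :: (w ++ y :: V') := by simp
  rw [this]
  exact List.isChain_split.mpr ⟨hU, List.isChain_cons_split.mpr ⟨h, hV⟩⟩

theorem getLast?_alt (a b : α) (n : ℕ) :
    (alt a b (n + 1)).getLast? = some (if Even n then a else b) := by
  rw [alt_add]
  split_ifs <;> simp [alt]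

theorem exists_len (a b : α) (e : Bool) {t : α} (ht : t = a ∨ t = b) (i : ℕ) :
    ∃ i', i ≤ i' ∧ i' ≤ i + 1 ∧ (altB a b e (i' + 1)).getLast? = some t := by
  by_cases h : (altB a b e (i + 1)).getLast? = some t
  · exact ⟨i, le_rfl, by omega, h⟩
  · refine ⟨i + 1, by omega, le_rfl, ?_⟩
    simp only [altB, getLast?_alt, Option.some.injEq, Nat.even_add_one] at h ⊢
    by_cases hi : Even i <;> cases e <;> rcases ht with rfl | rfl <;> simp_all

theorem head?_altB (a b : α) (e : Bool) (n : ℕ) :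
    (altB a b e (n + 1)).head? = some (bif e then b else a) := rfl

theorem pr_altB {a b : α} (h : a ≠ b) (e : Bool) (n : ℕ) : Pr (altB a b e n) := by
  cases e
  · exact pr_alt h n
  · exact pr_alt h.symm n

variable [DecidableEq α]

theorem over_altB (a b : α) (e : Bool) (n : ℕ) : Over {a, b} (altB a b e n) := by
  cases e
  · exact over_alt a b n
  · rw [Finset.pair_comm]; exact over_alt b a n

theorem Over.reverse {P : Finset α} {u : List α} (h : Over P u) : Over P u.reverse :=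
  fun e he => h e (by simpa using he)

/-- The connector `w` is proper between the letters `a, b` on the left and `c, d` on the right,
except possibly for the pair `b, d`. -/
def Semi (a b c d : α) (w : List α) : Prop :=
  ∀ e f : Bool, ¬ (e && f) = true → Pr ((bif e then b else a) :: w ++ [bif f then d else c])

theorem pr_mid {a b c d : α} (hab : a ≠ b) (hcd : c ≠ d) {w : List α} (hw : Semi a b c d w)
    {e f : Bool} (h : ¬ (e && f) = true) (i j : ℕ) :
    Pr ((altB a b e (i + 1)).reverse ++ w ++ altB c d f (j + 1)) :=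
  pr_glue (pr_reverse.mpr (pr_altB hab _ _)) (pr_altB hcd _ _)
    (by rw [List.getLast?_reverse, head?_altB]) (head?_altB _ _ _ _) (hw e f h)

theorem beta_ne {i j : ℕ} {e f : Bool} (h : beta i j e f ≠ 0) : ¬ (e && f) = true := by
  intro h'
  obtain ⟨rfl, rfl⟩ := Bool.and_eq_true_iff.mp h'
  exact h (beta_tt i j)

theorem beta_le_B {a b c d : α} (hab : a ≠ b) (hcd : c ≠ d) {w : List α} (hw : Semi a b c d w)
    (e f : Bool) (i j : ℕ) :
    beta i j e f ≤ B ((altB a b e (i + 1)).reverse ++ w ++ altB c d f (j + 1)) :=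
  Sys.realize beta_paths ((run_real a b).reverse.prod (run_real c d) w)
    (fun _ hs => pr_mid hab hcd hw (beta_ne hs) _ _) ((e, i), (f, j))

theorem exists_mem_last {P : Finset α} {U : List α} (h : Over P U) (h0 : U ≠ []) :
    ∃ x ∈ P, U.getLast? = some x :=
  ⟨U.getLast h0, h _ (List.getLast_mem h0), List.getLast?_eq_some_getLast h0⟩

theorem exists_mem_head {P : Finset α} {U : List α} (h : Over P U) (h0 : U ≠ []) :
    ∃ x ∈ P, U.head? = some x :=
  ⟨U.head h0, h _ (List.head_mem h0), List.head?_eq_some_head h0⟩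

theorem pr_family {a₁ b₁ a b c d a₄ b₄ : α} (h₁ : a₁ ≠ b₁) (hab : a ≠ b) (hcd : c ≠ d)
    (h₄ : a₄ ≠ b₄) {w₁ w₂ w₃ : List α} (hw₁ : Free {a₁, b₁} {a, b} w₁) (hw₂ : Semi a b c d w₂)
    (hw₃ : Free {c, d} {a₄, b₄} w₃) {e f : Bool} (h : ¬ (e && f) = true) (e₁ e₄ : Bool)
    (m₁ i j m₄ : ℕ) :
    Pr ((altB a₁ b₁ e₁ (m₁ + 1)).reverse ++ w₁ ++ (((altB a b e (i + 1)).reverse ++ w₂ ++
      altB c d f (j + 1)) ++ w₃ ++ altB a₄ b₄ e₄ (m₄ + 1))) := by
  have ne : ∀ (x y : α) (g : Bool) (n : ℕ), altB x y g (n + 1) ≠ [] := fun x y g n => by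
    simp [altB, alt]
  obtain ⟨x₁, hx₁, ex₁⟩ := exists_mem_last (over_altB a₁ b₁ e₁ (m₁ + 1)).reverse (by simp [ne])
  obtain ⟨x₂, hx₂, ex₂⟩ := exists_mem_head (over_altB a b e (i + 1)).reverse (by simp [ne])
  obtain ⟨x₃, hx₃, ex₃⟩ := exists_mem_last (over_altB c d f (j + 1)) (ne _ _ _ _)
  obtain ⟨x₄, hx₄, ex₄⟩ := exists_mem_head (over_altB a₄ b₄ e₄ (m₄ + 1)) (ne _ _ _ _)
  refine pr_glue (pr_reverse.mpr (pr_altB h₁ _ _)) (pr_glue (pr_mid hab hcd hw₂ h i j)
    (pr_altB h₄ _ _) ?_ ex₄ (hw₃ _ hx₃ _ hx₄)) ex₁ ?_ (hw₁ _ hx₁ _ hx₂)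
  · rw [List.getLast?_append, ex₃]; rfl
  · simp only [List.append_assoc]
    rw [List.head?_append, ex₂]; rfl

theorem family_lower {a₁ b₁ a b c d a₄ b₄ : α} (h₁ : a₁ ≠ b₁) (hab : a ≠ b) (hcd : c ≠ d)
    (h₄ : a₄ ≠ b₄) {w₁ w₂ w₃ : List α} (hw₁ : Free {a₁, b₁} {a, b} w₁) (hw₂ : Semi a b c d w₂)
    (hw₃ : Free {c, d} {a₄, b₄} w₃) {e f : Bool} (h : ¬ (e && f) = true)
    {s t : α} (hs : s = a ∨ s = b) (ht : t = c ∨ t = d) (L n : ℕ) :
    ∃ m₁ i j m₄, L ≤ m₁ ∧ L ≤ i ∧ L ≤ j ∧ L ≤ m₄ ∧ m₁ + i + j + m₄ ≤ n + 4 * L + 2 ∧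
      (altB a b e (i + 1)).getLast? = some s ∧ (altB c d f (j + 1)).getLast? = some t ∧
      (37 / 5 : ℝ) ^ n ≤ 7 / 5 * (n + 1) ^ 3 *
        B ((altB a₁ b₁ false (m₁ + 1)).reverse ++ w₁ ++ (((altB a b e (i + 1)).reverse ++ w₂ ++
          altB c d f (j + 1)) ++ w₃ ++ altB a₄ b₄ false (m₄ + 1))) := by
  obtain ⟨n₁, n', e₁, g₁⟩ := exists_choose 2 (27 / 5) n
  obtain ⟨n₂, n₄, e₂, g₂⟩ := exists_choose (17 / 5) 2 n'
  obtain ⟨i₀, j₀, e₃, g₃⟩ := beta_growth n₂ h
  obtain ⟨i, hi, hi', hs'⟩ := exists_len a b e hs (i₀ + L)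
  obtain ⟨j, hj, hj', ht'⟩ := exists_len c d f ht (j₀ + L)
  refine ⟨n₁ + L, i, j, n₄ + L, by omega, by omega, by omega, by omega, by omega, hs', ht', ?_⟩
  have hB := Sys.realize (run_paths.prod (beta_paths.prod run_paths))
    ((run_real a₁ b₁).reverse.prod ((((run_real a b).reverse.prod (run_real c d) w₂)).prod
      (run_real a₄ b₄) w₃) w₁)
    (fun s hs => pr_family h₁ hab hcd h₄ hw₁ hw₂ hw₃
      (beta_ne (i := s.2.1.1.2) (j := s.2.1.2.2) fun h0 => hs (by simp [h0])) _ _ _ _ _ _)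
    ((false, n₁ + L), (((e, i), (f, j)), (false, n₄ + L)))
  simp only [Sys.prod, run] at hB
  have hp : (n₁ + n').choose n₁ * 2 ^ n₁ * ((n₂ + n₄).choose n₂ * beta i₀ j₀ e f * 2 ^ n₄) ≤
      (n₁ + L + (i + j + (n₄ + L))).choose (n₁ + L) * 2 ^ (n₁ + L) *
        ((i + j + (n₄ + L)).choose (i + j) * beta i j e f * 2 ^ (n₄ + L)) := by
    gcongr
    · exact choose_mono (by omega) (by omega)
    · norm_num
    · omega
    · exact choose_mono (by omega) (by omega)
    · exact beta_mono (by omega) (by omega) e f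
    · norm_num
    · omega
  have hq := (Nat.cast_le (α := ℝ)).mpr (hp.trans hB)
  push_cast at hq
  have k₁ : (n' : ℝ) + 1 ≤ n + 1 := by exact_mod_cast (by omega : n' + 1 ≤ n + 1)
  have k₂ : (n₂ : ℝ) + 1 ≤ n + 1 := by exact_mod_cast (by omega : n₂ + 1 ≤ n + 1)
  norm_num at g₁ g₂
  calc (37 / 5 : ℝ) ^ n ≤ (n + 1) * (((n₁ + n').choose n₁ : ℝ) * 2 ^ n₁ * (27 / 5) ^ n') := g₁
    _ ≤ (n + 1) * (((n₁ + n').choose n₁ : ℝ) * 2 ^ n₁ * ((n + 1) *
          (((n₂ + n₄).choose n₂ : ℝ) * (7 / 5 * (n + 1) * beta i₀ j₀ e f) * 2 ^ n₄))) := by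
        gcongr
        refine g₂.trans ?_
        gcongr
        refine g₃.trans ?_
        gcongr
    _ = 7 / 5 * (n + 1) ^ 3 * (((n₁ + n').choose n₁ : ℝ) * 2 ^ n₁ *
          (((n₂ + n₄).choose n₂ : ℝ) * beta i₀ j₀ e f * 2 ^ n₄)) := by ring
    _ ≤ _ := by gcongr

end Pool.Agent.P.MP_f3d782_pr
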