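import Mathlib
import Pool.Agent.P.MP_f3d782_pr.Lower

set_option autoImplicit false
set_option linter.unusedSectionVars false

namespace Pool.Agent.P.MP_f3d782_pr

variable {α β : Type}

/-- The sliding block map with window `r`. -/
def G (r : ℕ) (g : List α → β) : List α → List β
  | [] => []
  | a :: x => if r ≤ x.length + 1 then g ((a :: x).take r) :: G r g x else []

variable {r : ℕ} {g : List α → β}

theorem G_short {x : List α} (h : x.length < r) : G r g x = [] := by
  cases x with
  | nil => rfl
  | cons a x => rw [G, if_neg (by simp at h; omega)]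

theorem length_G {ρ : ℕ} (x : List α) : (G (ρ + 1) g x).length = x.length - ρ := by
  induction x with
  | nil => simp [G]
  | cons a x ih =>
    rw [G]
    split_ifs with h
    · simp [ih]; omega
    · simp; omega

theorem G_suffix (u t : List α) : ∃ z, G r g (u ++ t) = z ++ G r g t := by
  induction u with
  | nil => exact ⟨[], rfl⟩
  | cons a u ih =>
    obtain ⟨z, hz⟩ := ih
    rw [List.cons_append, G]
    split_ifs with h
    · exact ⟨_ :: z, by rw [hz]; rfl⟩
    · exact ⟨[], by rw [G_short (by simp at h; omega)]; rfl⟩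

theorem G_append (u v : List α) : ∃ z, G r g (u ++ v) = G r g u ++ z ++ G r g v := by
  induction u with
  | nil => exact ⟨[], rfl⟩
  | cons a u ih =>
    by_cases h : r ≤ u.length + 1
    · obtain ⟨z, hz⟩ := ih
      refine ⟨z, ?_⟩
      have e : (a :: (u ++ v)).take r = (a :: u).take r :=
        List.take_append_of_le_length (l₁ := a :: u) (by simpa using h)
      rw [List.cons_append, G, G, if_pos h, if_pos (by simp; omega), hz, e]
      rfl
    · obtain ⟨z, hz⟩ := G_suffix (r := r) (g := g) (a :: u) v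
      exact ⟨z, by rw [hz, G, if_neg h]; rfl⟩

theorem G_left (u s : List α) (h : r ≤ s.length + 1) :
    ∃ z, ∀ v, G r g (u ++ s ++ v) = z ++ G r g (s ++ v) := by
  induction u with
  | nil => exact ⟨[], fun _ => rfl⟩
  | cons a u ih =>
    obtain ⟨z, hz⟩ := ih
    refine ⟨g ((a :: u ++ s).take r) :: z, fun v => ?_⟩
    have e : (a :: (u ++ s ++ v)).take r = (a :: u ++ s).take r :=
      List.take_append_of_le_length (l₁ := a :: u ++ s) (by simp; omega)
    rw [List.cons_append, List.cons_append, G, if_pos (by simp; omega), hz, e]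
    rfl

theorem G_alt (hr : 1 ≤ r) (a b : α) (m : ℕ) :
    G r g (alt a b m) = alt (g (alt a b r)) (g (alt b a r)) (m + 1 - r) := by
  induction m generalizing a b with
  | zero => rw [show 0 + 1 - r = 0 by omega]; rfl
  | succ m ih =>
    rw [alt, G, length_alt]
    split_ifs with h
    · obtain ⟨k, hk⟩ := Nat.exists_eq_add_of_le h
      have e : (a :: alt b a m).take r = alt a b r := by
        change (alt a b (m + 1)).take r = _
        rw [hk, alt_add, List.take_left' (length_alt _ _ _)]
      rw [show m + 1 + 1 - r = (m + 1 - r) + 1 by omega, alt, ih, e]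
    · rw [show m + 1 + 1 - r = 0 by omega]; rfl

variable [DecidableEq α] [DecidableEq β]

/-- The number of defects of the image word. -/
def E (r : ℕ) (g : List α → β) (x : List α) : ℕ := D (G r g x)

theorem E_append_ge (u v : List α) : E r g u + E r g v ≤ E r g (u ++ v) := by
  obtain ⟨z, hz⟩ := G_append (r := r) (g := g) u v
  unfold E
  rw [hz]
  have h1 := D_append_ge (G r g u) z
  have h2 := D_append_ge (G r g u ++ z) (G r g v)
  omega

theorem E_infix_le (u m v : List α) : E r g m ≤ E r g (u ++ m ++ v) := by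
  have h1 := E_append_ge (r := r) (g := g) u m
  have h2 := E_append_ge (r := r) (g := g) (u ++ m) v
  omega

theorem E_splice {ρ : ℕ} (u s v : List α) (h : ρ + 2 ≤ s.length) :
    E (ρ + 1) g (u ++ s ++ v) + E (ρ + 1) g s = E (ρ + 1) g (u ++ s) + E (ρ + 1) g (s ++ v) := by
  obtain ⟨z, hz⟩ := G_left (r := ρ + 1) (g := g) u s (by omega)
  obtain ⟨z', hz'⟩ := G_append (r := ρ + 1) (g := g) s v
  have h0 := hz []
  simp only [List.append_nil] at h0
  unfold E
  rw [hz v, h0, hz', List.append_assoc (G _ g s), ← List.append_assoc z]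
  exact D_splice _ _ _ (by rw [length_G]; omega)

theorem E_over (hr : 1 ≤ r) {P : Finset α} (hP : P.card = 2) {u : List α} (hp : Pr u)
    (h : Over P u) : E r g u = 0 := by
  obtain ⟨a, b, -, rfl⟩ := Finset.card_eq_two.mp hP
  unfold E
  rcases over_eq_alt hp h with e | e <;> rw [e, G_alt hr, D_alt]

theorem D_over {P : Finset α} (hP : P.card = 2) {u : List α} (hp : Pr u) (h : Over P u) :
    D u = 0 := by
  obtain ⟨a, b, -, rfl⟩ := Finset.card_eq_two.mp hP
  rcases over_eq_alt hp h with e | e <;> rw [e, D_alt]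

theorem pr_splice {u s v : List α} (h1 : Pr (u ++ s)) (h2 : Pr (s ++ v)) (hs : s ≠ []) :
    Pr (u ++ s ++ v) := by
  refine List.isChain_append.mpr ⟨h1, h2.right_of_append, fun x hx y hy => ?_⟩
  refine (List.isChain_append.mp h2).2.2 x ?_ y hy
  rwa [List.getLast?_append_of_ne_nil _ hs] at hx

theorem same_head {Q : Finset α} (hQ : Q.card = 2) {L : ℕ} {C C' : List α} (hp : Pr C)
    (hp' : Pr C') (hC : Over Q C) (hC' : Over Q C') (hl : L ≤ C.length) (hl' : L ≤ C'.length)
    (hh : C.head? = C'.head?) : ∃ s t t', s.length = L ∧ C = s ++ t ∧ C' = s ++ t' := by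
  cases C with
  | nil =>
    obtain rfl : L = 0 := by simpa using hl
    exact ⟨[], [], C', rfl, rfl, rfl⟩
  | cons c t =>
    obtain ⟨t', rfl⟩ := List.head?_eq_some_iff.mp hh.symm
    obtain ⟨d, -, rfl⟩ := other hQ (hC c (by simp))
    have e1 := eq_alt (b := d) hp fun e he => by simpa using hC e (by simp [he])
    have e2 := eq_alt (b := d) hp' fun e he => by simpa using hC' e (by simp [he])
    obtain ⟨k, hk⟩ := Nat.exists_eq_add_of_le hl
    obtain ⟨k', hk'⟩ := Nat.exists_eq_add_of_le hl'
    simp only [List.length_cons] at hk hk'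
    rw [hk, alt_add] at e1
    rw [hk', alt_add] at e2
    exact ⟨_, _, _, length_alt _ _ _, e1, e2⟩

theorem same_last {Q : Finset α} (hQ : Q.card = 2) {L : ℕ} {C C' : List α} (hp : Pr C)
    (hp' : Pr C') (hC : Over Q C) (hC' : Over Q C') (hl : L ≤ C.length) (hl' : L ≤ C'.length)
    (hh : C.getLast? = C'.getLast?) : ∃ s t t', s.length = L ∧ C = t ++ s ∧ C' = t' ++ s := by
  obtain ⟨s, t, t', h1, h2, h3⟩ := same_head hQ (L := L) (pr_reverse.mpr hp) (pr_reverse.mpr hp')
    hC.reverse hC'.reverse (by simpa using hl) (by simpa using hl') (by simpa using hh)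
  exact ⟨s.reverse, t.reverse, t'.reverse, by simpa using h1,
    by rw [← List.reverse_append, ← h2, List.reverse_reverse],
    by rw [← List.reverse_append, ← h3, List.reverse_reverse]⟩

theorem Over.left {P : Finset α} {u v : List α} (h : Over P (u ++ v)) : Over P u :=
  fun e he => h e (by simp [he])

theorem Over.right {P : Finset α} {u v : List α} (h : Over P (u ++ v)) : Over P v :=
  fun e he => h e (by simp [he])

/-- A long proper word over the two-letter set `P`. -/
def Run (L : ℕ) (P : Finset α) (A : List α) : Prop := Pr A ∧ Over P A ∧ L ≤ A.length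

theorem pump_right {ρ : ℕ} {Q : Finset α} (hQ : Q.card = 2) {C C' : List α}
    (hC : Run (ρ + 2) Q C) (hC' : Run (ρ + 2) Q C') (hh : C.head? = C'.head?) (u : List α) :
    E (ρ + 1) g (u ++ C) = E (ρ + 1) g (u ++ C') ∧ D (u ++ C) = D (u ++ C') ∧
      (Pr (u ++ C) → Pr (u ++ C')) := by
  obtain ⟨s, t, t', hs, rfl, rfl⟩ := same_head hQ hC.1 hC'.1 hC.2.1 hC'.2.1 hC.2.2 hC'.2.2 hh
  have e1 := E_splice (g := g) u s t hs.ge
  have e2 := E_splice (g := g) u s t' hs.ge
  have d1 := D_splice u s t (by omega)
  have d2 := D_splice u s t' (by omega)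
  rw [E_over (by omega) hQ hC.1 hC.2.1] at e1
  rw [E_over (by omega) hQ hC'.1 hC'.2.1] at e2
  rw [D_over hQ hC.1 hC.2.1] at d1
  rw [D_over hQ hC'.1 hC'.2.1] at d2
  simp only [← List.append_assoc]
  exact ⟨by omega, by omega, fun h => pr_splice h.left_of_append hC'.1 (by rintro rfl; simp at hs)⟩

theorem pump_left {ρ : ℕ} {Q : Finset α} (hQ : Q.card = 2) {C C' : List α}
    (hC : Run (ρ + 2) Q C) (hC' : Run (ρ + 2) Q C') (hh : C.getLast? = C'.getLast?)
    (v : List α) : E (ρ + 1) g (C ++ v) = E (ρ + 1) g (C' ++ v) := by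
  obtain ⟨s, t, t', hs, rfl, rfl⟩ := same_last hQ hC.1 hC'.1 hC.2.1 hC'.2.1 hC.2.2 hC'.2.2 hh
  have e1 := E_splice (g := g) t s v hs.ge
  have e2 := E_splice (g := g) t' s v hs.ge
  rw [E_over (by omega) hQ hC.1 hC.2.1] at e1
  rw [E_over (by omega) hQ hC'.1 hC'.2.1] at e2
  omega

theorem pump_both {ρ : ℕ} {P Q : Finset α} (hP : P.card = 2) (hQ : Q.card = 2)
    {A A' C C' : List α} (hA : Run (ρ + 2) P A) (hA' : Run (ρ + 2) P A') (hC : Run (ρ + 2) Q C)
    (hC' : Run (ρ + 2) Q C') (h1 : A.getLast? = A'.getLast?) (h2 : C.head? = C'.head?)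
    (w : List α) : E (ρ + 1) g (A ++ w ++ C) = E (ρ + 1) g (A' ++ w ++ C') := by
  rw [(pump_right hQ hC hC' h2 _).1, List.append_assoc, pump_left hP hA hA' h1,
    List.append_assoc]

theorem exists_bridge {Q : Finset α} (hQ : Q.card = 2) {x y : α} (hx : x ∈ Q) (hy : y ∈ Q)
    (L : ℕ) : ∃ M, Run L Q M ∧ M.head? = some x ∧ M.getLast? = some y := by
  obtain ⟨d, hd, rfl⟩ := other hQ hx
  obtain ⟨i, hi, -, h⟩ := exists_len x d false (t := y) (by simpa using hy) L
  exact ⟨_, ⟨pr_altB hd _ _, over_altB _ _ _ _, by simp; omega⟩, rfl, h⟩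

theorem Run.ne_nil {ρ : ℕ} {P : Finset α} {A : List α} (h : Run (ρ + 2) P A) : A ≠ [] := by
  rintro rfl
  simpa using h.2.2

/-- The listed words occur in this order as disjoint factors of the word. -/
def Emb : List (List α) → List α → Prop
  | [], _ => True
  | s :: ss, x => ∃ w t, x = w ++ s ++ t ∧ Emb ss t

theorem Emb.prepend {ss : List (List α)} {x : List α} (h : Emb ss x) (u : List α) :
    Emb ss (u ++ x) := by
  cases ss with
  | nil => trivial
  | cons s ss =>
    obtain ⟨w, t, rfl, h⟩ := h
    exact ⟨u ++ w, t, by simp, h⟩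

theorem Emb.sublist {ss ss' : List (List α)} (hs : ss'.Sublist ss) {x : List α} (h : Emb ss x) :
    Emb ss' x := by
  induction hs generalizing x with
  | slnil => exact h
  | cons s _ ih =>
    obtain ⟨w, t, rfl, h⟩ := h
    exact (ih h).prepend _
  | cons_cons s _ ih =>
    obtain ⟨w, t, rfl, h⟩ := h
    exact ⟨w, t, rfl, ih h⟩

theorem first_defect {x : List α} (h : 1 ≤ D x) :
    ∃ w a t, x = w ++ a :: t ∧ df a t = 1 ∧ D (a :: t) = D x := by
  induction x with
  | nil => simp [D] at h
  | cons a x ih =>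
    by_cases h1 : df a x = 1
    · exact ⟨[], a, x, rfl, h1, rfl⟩
    · have h2 := df_le_one a x
      rw [D] at h
      obtain ⟨w, b, t, rfl, h3, h4⟩ := ih (by omega)
      exact ⟨a :: w, b, t, rfl, h3, by rw [h4, D]; omega⟩

theorem exists_emb {l : ℕ} (hl : 3 ≤ l) (N : ℕ) {x : List α} (h : l * N ≤ D x) :
    ∃ ss : List (List α), ss.length = N ∧ (∀ s ∈ ss, s.length = l ∧ 1 ≤ D s) ∧ Emb ss x := by
  induction N generalizing x with
  | zero => exact ⟨[], rfl, by simp, trivial⟩
  | succ N ih =>
    rw [mul_add, mul_one] at h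
    obtain ⟨w, a, t, rfl, h1, h2⟩ := first_defect (x := x) (by omega)
    have h3 := D_le_length (a :: t)
    have h4 := D_append_le ((a :: t).take l) ((a :: t).drop l)
    have h5 : ((a :: t).take l).length = l := List.length_take_of_le (by omega)
    rw [List.take_append_drop, h5] at h4
    obtain ⟨ss, hs1, hs2, hs3⟩ := ih (x := (a :: t).drop l) (by omega)
    refine ⟨(a :: t).take l :: ss, by simp [hs1], ?_, w, _, by simp, hs3⟩
    intro s hs
    rcases List.mem_cons.mp hs with rfl | hs
    · refine ⟨h5, ?_⟩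
      obtain ⟨k, rfl⟩ : ∃ k, l = k + 1 := ⟨l - 1, by omega⟩
      rw [List.take_succ_cons, D]
      have h6 := df_append (a := a) (t := t.take k) (by simp at h5 ⊢; omega) (t.drop k)
      rw [List.take_append_drop] at h6
      omega
    · exact hs2 s hs

theorem D_append_single (x : List α) (c : α) : D (x ++ [c]) ≤ D x + 1 := by
  induction x with
  | nil => simp [D, df]
  | cons a x ih =>
    simp only [List.cons_append, D]
    by_cases h : 2 ≤ x.length
    · rw [df_append h]; omega
    · have h1 := df_le_one a (x ++ [c])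
      have h2 := D_le_length (x ++ [c])
      simp at h2
      omega

theorem split_of_D {y : List α} (h : D y = 1) :
    ∃ (a b c : α) (u v : List α), y = u ++ v ∧ Over {a, b} u ∧ Over {c, b} v ∧
      Over {a, b} (y.take 2) := by
  induction y with
  | nil => simp [D] at h
  | cons p y ih =>
    have hl := D_le_length (p :: y)
    match y, hl with
    | [], hl => simp at hl; omega
    | [_], hl => simp at hl; omega
    | q :: q' :: t, _ =>
      rw [D] at h
      by_cases h0 : D (q :: q' :: t) = 0
      · refine ⟨p, q, q', [p], q :: q' :: t, rfl, fun e he => by simp_all, ?_,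
          fun e he => by simpa using he⟩
        rw [eq_alt_of_D h0, Finset.pair_comm]
        exact over_alt _ _ _
      · obtain ⟨a, b, c, u, v, e, h1, h2, h3⟩ := ih (by omega)
        have hp : p = q' := by
          by_contra hne
          simp [df, hne] at h
          omega
        have hq : q ∈ ({a, b} : Finset α) := h3 q (by simp)
        have hq' : q' ∈ ({a, b} : Finset α) := h3 q' (by simp)
        refine ⟨a, b, c, p :: u, v, by rw [e]; rfl, fun e he => ?_, h2, fun e he => ?_⟩
        · rcases List.mem_cons.mp he with rfl | he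
          · exact hp ▸ hq'
          · exact h1 e he
        · simp only [List.take_succ_cons, List.take_zero, List.mem_cons, List.not_mem_nil,
            or_false] at he
          rcases he with rfl | rfl
          · exact hp ▸ hq'
          · exact hq

theorem UB_of_D_le {y : List α} (hp : Pr y) (h : D y ≤ 1) : UB (7 / 2) (3 / 2) y := by
  by_cases h0 : D y = 0
  · have : UB 2 1 y := by
      unfold UB
      rw [one_mul]
      exact_mod_cast B_le_of_D_zero h0
    exact this.mono (by norm_num) (by norm_num) (by norm_num) (by norm_num)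
  · obtain ⟨a, b, c, u, v, rfl, h1, h2, -⟩ := split_of_D (y := y) (by omega)
    exact UB_root2 hp h1 h2

theorem card_toFinset_le {y : List α} (h : D y = 0) : y.toFinset.card ≤ 2 := by
  match y, h with
  | [], _ => simp
  | [a], _ => simp
  | a :: b :: t, h =>
    refine le_trans (Finset.card_le_card (t := {a, b}) fun e he => ?_) Finset.card_le_two
    rw [eq_alt_of_D h] at he
    exact over_alt _ _ _ e (List.mem_toFinset.mp he)

theorem no_growth {l m c : ℝ} (hm : 0 < m) (hl : m < l) (k : ℕ) :
    ¬ ∀ n : ℕ, l ^ n ≤ c * (n + 1) ^ k * m ^ n := by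
  intro H
  have h1 : 1 < l / m := (one_lt_div hm).mpr hl
  have h2 := ((tendsto_pow_const_div_const_pow_of_one_lt k h1).comp
    (Filter.tendsto_add_atTop_nat 1)).const_mul (c * (l / m))
  rw [mul_zero] at h2
  obtain ⟨n, hn⟩ := (h2.eventually (gt_mem_nhds one_pos)).exists
  have h3 := H n
  have hl0 : 0 < l := hm.trans hl
  simp only [Function.comp_apply, Nat.cast_add, Nat.cast_one] at hn
  have : c * (l / m) * (((n : ℝ) + 1) ^ k / (l / m) ^ (n + 1)) =
      c * (n + 1) ^ k * m ^ n / l ^ n := by
    rw [div_pow]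
    field_simp
    ring
  rw [this, div_lt_one (by positivity)] at hn
  linarith

theorem no_fact (c C : ℕ) : ¬ ∀ k : ℕ, k.factorial ≤ c * C ^ k := by
  intro H
  have h2 := (FloorSemiring.tendsto_pow_div_factorial_atTop (C : ℝ)).const_mul (c : ℝ)
  rw [mul_zero] at h2
  obtain ⟨n, hn⟩ := (h2.eventually (gt_mem_nhds one_pos)).exists
  have h3 : (n.factorial : ℝ) ≤ c * C ^ n := by exact_mod_cast H n
  rw [← mul_div_assoc, div_lt_one (by positivity)] at hn
  linarith

end Pool.Agent.P.MP_f3d782_pr
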