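import Mathlib

set_option autoImplicit false

namespace Pool.Agent.P.MP_f3d782_pr

open MeasureTheory

/-- The event `E_n`: with `z j` arriving at time `σ j`, at every time `t` the letters that have
arrived, listed in increasing order of `j`, have no two consecutive equal terms. -/
def Good {q n : ℕ} (z : Fin n → Fin q) (σ : Equiv.Perm (Fin n)) : Prop :=
  ∀ t : Fin n, (((List.finRange n).filter (fun j => σ j ≤ t)).map z).IsChain (· ≠ ·)

/-- The mass that `μ_{q,n}` gives to the word `z`: the pair `(Z, σ)` is uniform, so conditioned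
on `E_n` it is uniform on `E_n`. -/
noncomputable def mu (q n : ℕ) (z : Fin n → Fin q) : ENNReal :=
  (Nat.card {σ : Equiv.Perm (Fin n) // Good z σ} : ENNReal) /
    (Nat.card {p : (Fin n → Fin q) × Equiv.Perm (Fin n) // Good p.1 p.2} : ENNReal)

/-- `P` is the law of the process `C^(q)`. -/
def IsColoringLaw (q : ℕ) (P : Measure (ℤ → Fin q)) : Prop :=
  IsProbabilityMeasure P ∧
    ∀ (m : ℤ) (n : ℕ), 1 ≤ n → ∀ z : Fin n → Fin q,
      P {x | ∀ i : Fin n, x (m + 1 + (i : ℕ)) = z i} = mu q n z

/-- The process with law `Q` is a block-factor of the process with law `P`. -/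
def IsBlockFactor {a b : ℕ} (Q : Measure (ℤ → Fin b)) (P : Measure (ℤ → Fin a)) : Prop :=
  ∃ r : ℕ, 1 ≤ r ∧ ∃ g : (Fin r → Fin a) → Fin b,
    P.map (fun (x : ℤ → Fin a) (i : ℤ) => g (fun j : Fin r => x (i + 1 + (j : ℕ)))) = Q

end Pool.Agent.P.MP_f3d782_pr
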