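import Mathlib
import Pool.Agent.P.MP_f3d782_pr.Basic

set_option autoImplicit false

namespace Pool.Agent.P.MP_f3d782_pr

open Finset

variable {α : Type} [Fintype α]

/-- The words of a given length. -/
def W (α : Type) [Fintype α] : ℕ → Finset (List α)
  | 0 => {[]}
  | m + 1 => (univ ×ˢ W α m).map ⟨fun p : α × List α => p.1 :: p.2, fun p q h => by
      simp only [List.cons.injEq] at h
      exact Prod.ext h.1 h.2⟩

theorem mem_W {m : ℕ} {x : List α} : x ∈ W α m ↔ x.length = m := by
  induction m generalizing x with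
  | zero => simp [W]
  | succ m ih =>
    cases x with
    | nil => simp [W]
    | cons a x =>
      simp only [W, mem_map, mem_product, mem_univ, true_and, ih, List.length_cons,
        Nat.add_right_cancel_iff]
      constructor
      · rintro ⟨p, hp, h⟩
        obtain ⟨-, rfl⟩ := List.cons.inj h
        exact hp
      · intro h
        exact ⟨(a, x), h, rfl⟩

theorem sum_W_succ {M : Type} [AddCommMonoid M] (m : ℕ) (f : List α → M) :
    ∑ x ∈ W α (m + 1), f x = ∑ a, ∑ x ∈ W α m, f (a :: x) := by
  rw [W, sum_map, sum_product]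
  rfl

theorem card_W (m : ℕ) : (W α m).card = Fintype.card α ^ m := by
  induction m with
  | zero => simp [W]
  | succ m ih => rw [W, card_map, card_product, ih, card_univ, pow_succ, mul_comm]

variable [DecidableEq α]

theorem card_ne_one (c : α) : ∑ a : α, (if c ≠ a then 1 else 0) = Fintype.card α - 1 := by
  rw [sum_boole, filter_ne, card_erase_of_mem (mem_univ _), card_univ]
  rfl

theorem card_ne_two {c b : α} (h : c ≠ b) :
    ∑ a : α, (if c ≠ a ∧ a ≠ b then 1 else 0) = Fintype.card α - 2 := by
  rw [sum_boole]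
  have : (univ.filter fun a => c ≠ a ∧ a ≠ b) = (univ.erase c).erase b := by
    ext a
    simp [and_comm, ne_comm]
  rw [this, card_erase_of_mem (by simp [h.symm]), card_erase_of_mem (mem_univ _), card_univ]
  rfl

theorem sum_ins_ctx {k : ℕ} (hk : Fintype.card α = k + 2) (n : ℕ) (c : α) (f : List α → ℕ)
    (hf : ∀ y, ¬ Pr (c :: y) → f y = 0) :
    ∑ x ∈ W α (n + 1), (if Pr (c :: x) then S x f else 0) =
      (n * k + k + 1) * ∑ y ∈ W α n, f y := by
  induction n generalizing c f with
  | zero =>
    rw [sum_W_succ]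
    simp only [W, sum_singleton, List.isChain_cons_cons, List.isChain_singleton, and_true, S,
      add_zero]
    have := card_ne_one c
    rw [hk] at this
    calc ∑ a : α, (if c ≠ a then f [] else 0) = ∑ a : α, (if c ≠ a then 1 else 0) * f [] :=
          sum_congr rfl fun a _ => by split_ifs <;> simp
      _ = _ := by rw [← sum_mul, this]; simp
  | succ n ih =>
    rw [sum_W_succ]
    have h1 : ∀ a : α, ∑ x ∈ W α (n + 1), (if Pr (c :: a :: x) then S (a :: x) f else 0) =
        ∑ x ∈ W α (n + 1), (if Pr (c :: a :: x) then f x else 0) +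
          (n * k + k + 1) * ∑ y ∈ W α n, f (a :: y) := by
      intro a
      by_cases hca : c = a
      · have : ∀ y, f (a :: y) = 0 := fun y => hf _ (by simp [hca])
        simp [hca, this]
      · rw [← ih a (fun y => f (a :: y)) fun y hy => hf _ fun hp => hy hp.tail, ← sum_add_distrib]
        refine sum_congr rfl fun x _ => ?_
        by_cases hp : Pr (a :: x) <;> simp [List.isChain_cons_cons, hca, hp, S]
    have h2 : ∀ x ∈ W α (n + 1), ∑ a : α, (if Pr (c :: a :: x) then f x else 0) = k * f x := by
      intro x hx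
      by_cases hp : Pr (c :: x)
      · obtain ⟨b, t, rfl⟩ := List.exists_cons_of_length_eq_add_one (mem_W.mp hx)
        have hcb := List.isChain_cons_cons.mp hp
        have := card_ne_two hcb.1
        rw [hk] at this
        calc ∑ a : α, (if Pr (c :: a :: b :: t) then f (b :: t) else 0)
            = ∑ a : α, (if c ≠ a ∧ a ≠ b then 1 else 0) * f (b :: t) :=
              sum_congr rfl fun a _ => by
                simp only [List.isChain_cons_cons, hcb.2, and_true]
                split_ifs <;> simp
          _ = _ := by rw [← sum_mul, this]; simp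
      · simp [hf x hp]
    simp only [h1, sum_add_distrib]
    rw [sum_comm, sum_congr rfl h2, ← mul_sum, ← mul_sum, ← sum_W_succ]
    ring

/-- The total number of buildings of words of length `n`. -/
def T (α : Type) [Fintype α] [DecidableEq α] (n : ℕ) : ℕ := ∑ x ∈ W α n, B x

theorem T_zero : T α 0 = 1 := by simp [T, W]

theorem T_succ {k : ℕ} (hk : Fintype.card α = k + 2) (n : ℕ) :
    T α (n + 1) = (n * k + k + 2) * T α n := by
  cases n with
  | zero =>
    rw [T, sum_W_succ, T_zero]
    have : ∀ a : α, B [a] = 1 := fun a => by simp [B, Bn, S]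
    simp [W, this, hk]
  | succ n =>
    rw [T, sum_W_succ]
    have h1 : ∀ a : α, ∑ x ∈ W α (n + 1), B (a :: x) =
        ∑ x ∈ W α (n + 1), (if Pr (a :: x) then B x else 0) +
          (n * k + k + 1) * ∑ y ∈ W α n, B (a :: y) := by
      intro a
      rw [← sum_ins_ctx hk n a (fun y => B (a :: y)) fun y hy => B_of_not_pr hy,
        ← sum_add_distrib]
      refine sum_congr rfl fun x _ => ?_
      rw [B_eq (List.cons_ne_nil _ _)]
      by_cases hp : Pr (a :: x) <;> simp [hp, S]
    have h2 : ∀ x ∈ W α (n + 1), ∑ a : α, (if Pr (a :: x) then B x else 0) = (k + 1) * B x := by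
      intro x hx
      by_cases hp : Pr x
      · obtain ⟨b, t, rfl⟩ := List.exists_cons_of_length_eq_add_one (mem_W.mp hx)
        have := card_ne_one b
        rw [hk] at this
        calc ∑ a : α, (if Pr (a :: b :: t) then B (b :: t) else 0)
            = ∑ a : α, (if b ≠ a then 1 else 0) * B (b :: t) :=
              sum_congr rfl fun a _ => by
                simp only [List.isChain_cons_cons, hp, and_true, ne_comm (a := a)]
                split_ifs <;> simp
          _ = _ := by rw [← sum_mul, this]; simp
      · simp [B_of_not_pr hp]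
    simp only [h1, sum_add_distrib]
    rw [sum_comm, sum_congr rfl h2, ← mul_sum, ← mul_sum, ← sum_W_succ, ← T]
    ring

theorem T_four (n : ℕ) : T (Fin 4) n = 2 ^ n * (n + 1).factorial := by
  induction n with
  | zero => simp [T_zero]
  | succ n ih => rw [T_succ (k := 2) (by simp), ih, Nat.factorial_succ (n + 1)]; ring

theorem T_three (n : ℕ) : 2 * T (Fin 3) n = (n + 2).factorial := by
  induction n with
  | zero => simp [T_zero]
  | succ n ih =>
    rw [T_succ (k := 1) (by simp), Nat.factorial_succ (n + 2), ← ih]; ring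

theorem count_pr_ctx {k : ℕ} (hk : Fintype.card α = k + 1) (n : ℕ) (c : α) :
    ∑ x ∈ W α n, (if Pr (c :: x) then 1 else 0) = k ^ n := by
  induction n generalizing c with
  | zero => rw [W, sum_singleton, if_pos (List.isChain_singleton _), pow_zero]
  | succ n ih =>
    rw [sum_W_succ]
    have := card_ne_one c
    rw [hk] at this
    calc ∑ a : α, ∑ x ∈ W α n, (if Pr (c :: a :: x) then 1 else 0)
        = ∑ a : α, (if c ≠ a then 1 else 0) * k ^ n := sum_congr rfl fun a _ => by
          by_cases hca : c = a
          · simp [hca]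
          · rw [← ih a]; simp [List.isChain_cons_cons, hca]
      _ = _ := by rw [← sum_mul, this, pow_succ, mul_comm]; simp

theorem count_pr {k : ℕ} (hk : Fintype.card α = k + 1) (n : ℕ) :
    ((W α (n + 1)).filter Pr).card = (k + 1) * k ^ n := by
  rw [card_filter, sum_W_succ]
  simp [count_pr_ctx hk, hk]

theorem weighted_D {ε : ℝ} (h0 : 0 ≤ ε) (h1 : ε ≤ 1) (m : ℕ) :
    ∑ x ∈ W α m, ε ^ D x ≤
      (Fintype.card α : ℝ) ^ min m 2 * (1 + Fintype.card α * ε) ^ m := by
  have hq : (0 : ℝ) ≤ Fintype.card α := Nat.cast_nonneg _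
  have h2 : (1 : ℝ) ≤ 1 + Fintype.card α * ε := by nlinarith [mul_nonneg hq h0]
  induction m with
  | zero => simp [W, D]
  | succ m ih =>
    by_cases hm : m < 2
    · calc ∑ x ∈ W α (m + 1), ε ^ D x ≤ ∑ x ∈ W α (m + 1), (1 : ℝ) :=
            sum_le_sum fun x _ => pow_le_one₀ h0 h1
        _ = (Fintype.card α : ℝ) ^ min (m + 1) 2 * 1 := by
            rw [min_eq_left (by omega)]; simp [card_W]
        _ ≤ _ := by gcongr; exact one_le_pow₀ h2
    · rw [sum_W_succ, sum_comm]
      have h3 : ∀ x ∈ W α m, ∑ a : α, ε ^ D (a :: x) ≤ (1 + Fintype.card α * ε) * ε ^ D x := by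
        intro x hx
        have hl := mem_W.mp hx
        match x, hl with
        | [], hl => simp at hl; omega
        | [_], hl => simp at hl; omega
        | b :: c :: t, _ =>
          calc ∑ a : α, ε ^ D (a :: b :: c :: t)
              ≤ ∑ a : α, ((if a = c then 1 else 0) + ε) * ε ^ D (b :: c :: t) :=
                sum_le_sum fun a _ => by
                  rw [D, pow_add]
                  gcongr
                  by_cases h : a = c <;> simp [df, h, h0]
            _ = _ := by rw [← sum_mul, sum_add_distrib]; simp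
      rw [min_eq_right (by omega)] at ih ⊢
      calc _ ≤ ∑ x ∈ W α m, (1 + Fintype.card α * ε) * ε ^ D x := sum_le_sum h3
        _ ≤ _ := by rw [← mul_sum, pow_succ _ m]; nlinarith

theorem card_D_le {ε : ℝ} (h0 : 0 < ε) (h1 : ε ≤ 1) (m K : ℕ) :
    (((W (Fin 4) m).filter fun x => D x ≤ K).card : ℝ) ≤ 16 / ε ^ K * (1 + 4 * ε) ^ m := by
  have h2 := weighted_D (α := Fin 4) h0.le h1 m
  have h3 : (((W (Fin 4) m).filter fun x => D x ≤ K).card : ℝ) * ε ^ K ≤
      ∑ x ∈ W (Fin 4) m, ε ^ D x := by
    rw [← nsmul_eq_mul, ← sum_const]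
    refine (sum_le_sum fun x hx => pow_le_pow_of_le_one h0.le h1 (mem_filter.mp hx).2).trans ?_
    exact sum_le_sum_of_subset_of_nonneg (filter_subset _ _) fun _ _ _ => by positivity
  have h4 : ((4 : ℕ) : ℝ) ^ min m 2 ≤ 16 := by
    calc ((4 : ℕ) : ℝ) ^ min m 2 ≤ ((4 : ℕ) : ℝ) ^ 2 :=
          pow_le_pow_right₀ (by norm_num) (min_le_right _ _)
      _ = 16 := by norm_num
  rw [Fintype.card_fin] at h2
  rw [div_mul_eq_mul_div, le_div_iff₀ (by positivity)]
  refine h3.trans (h2.trans ?_)
  push_cast at h4 ⊢
  gcongr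

end Pool.Agent.P.MP_f3d782_pr
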