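import Mathlib
import Pool.Agent.P.MP_f3d782_pr.Block
import Pool.Agent.P.MP_f3d782_pr.Count

set_option autoImplicit false

namespace Pool.Agent.P.MP_f3d782_pr

open Finset

/-- The block map with window `ρ + 1` carries the word laws over `α` to those over `β`. -/
def Hyp {α β : Type} [Fintype α] [DecidableEq α] [Fintype β] [DecidableEq β] (ρ : ℕ)
    (g : List α → β) : Prop :=
  ∀ y : List β, y ≠ [] →
    T β y.length * ∑ x ∈ (W α (y.length + ρ)).filter (fun x => G (ρ + 1) g x = y), B x =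
      T α (y.length + ρ) * B y

theorem T_four_pos (n : ℕ) : 0 < T (Fin 4) n := by rw [T_four]; positivity

theorem T_three_pos (n : ℕ) : 0 < T (Fin 3) n := by
  have := T_three n
  have := (n + 2).factorial_pos
  omega

theorem not_hyp_three_four (ρ : ℕ) (g : List (Fin 3) → Fin 4) : ¬ Hyp ρ g := by
  intro H
  refine no_growth (l := 3) (m := 2) (c := 2 ^ ρ) (by norm_num) (by norm_num) 0 fun n => ?_
  have h1 : (W (Fin 4) (n + 1)).filter Pr ⊆
      ((W (Fin 3) (n + ρ + 1)).filter Pr).image (G (ρ + 1) g) := by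
    intro y hy
    obtain ⟨hy1, hy2⟩ := mem_filter.mp hy
    have hl := mem_W.mp hy1
    have h := H y (by rintro rfl; simp at hl)
    have h3 : T (Fin 3) (y.length + ρ) * B y ≠ 0 :=
      (Nat.mul_pos (T_three_pos _) (B_pos hy2)).ne'
    rw [← h] at h3
    obtain ⟨x, hx, hB⟩ := exists_ne_zero_of_sum_ne_zero (right_ne_zero_of_mul h3)
    obtain ⟨hx1, hx2⟩ := mem_filter.mp hx
    refine mem_image.mpr ⟨x, mem_filter.mpr ⟨?_, pr_of_B_ne hB⟩, hx2⟩
    rwa [hl, show n + 1 + ρ = n + ρ + 1 by omega] at hx1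
  have h2 := (card_le_card h1).trans card_image_le
  rw [count_pr (k := 3) (by simp), count_pr (k := 2) (by simp)] at h2
  have h3 : (3 : ℕ) ^ n ≤ 2 ^ ρ * 2 ^ n := by
    rw [pow_add] at h2
    nlinarith [Nat.zero_le (3 ^ n)]
  simpa using (Nat.cast_le (α := ℝ)).mpr h3

variable {ρ : ℕ} {g : List (Fin 4) → Fin 3}

theorem fact_add_le (n k : ℕ) : (n + k).factorial ≤ n.factorial * (n + k) ^ k := by
  induction k with
  | zero => simp
  | succ k ih =>
    rw [← add_assoc, Nat.factorial_succ, pow_succ]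
    calc (n + k + 1) * (n + k).factorial ≤ (n + k + 1) * (n.factorial * (n + k + 1) ^ k) := by
          exact Nat.mul_le_mul_left _ (ih.trans (Nat.mul_le_mul_left _
            (Nat.pow_le_pow_left (Nat.le_succ _) _)))
      _ = _ := by ring

theorem Hyp.up (H : Hyp ρ g) {x : List (Fin 4)} (hx : ρ + 1 ≤ x.length) :
    B x ≤ 2 * 2 ^ x.length * (x.length + 1) ^ ρ * B (G (ρ + 1) g x) := by
  obtain ⟨n, hn⟩ : ∃ n, x.length = n + ρ ∧ 0 < n := ⟨x.length - ρ, by omega, by omega⟩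
  have hl : (G (ρ + 1) g x).length = n := by rw [length_G]; omega
  have h := H (G (ρ + 1) g x) (by intro h; rw [h] at hl; simp at hl; omega)
  rw [hl] at h
  have h1 : B x ≤ ∑ z ∈ (W (Fin 4) (n + ρ)).filter
      (fun z => G (ρ + 1) g z = G (ρ + 1) g x), B z :=
    single_le_sum (fun _ _ => Nat.zero_le _) (mem_filter.mpr ⟨mem_W.mpr hn.1, rfl⟩)
  have h2 := T_three n
  have h3 := fact_add_le (n + 1) ρ
  have h4 : (n + 1).factorial ≤ (n + 2).factorial := Nat.factorial_le (by omega)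
  rw [T_four] at h
  rw [hn.1]
  refine Nat.le_of_mul_le_mul_left ?_ (n + 2).factorial_pos
  calc (n + 2).factorial * B x ≤ 2 * (T (Fin 3) n * ∑ z ∈ (W (Fin 4) (n + ρ)).filter
        (fun z => G (ρ + 1) g z = G (ρ + 1) g x), B z) := by rw [← h2, mul_assoc]; gcongr
    _ = 2 * (2 ^ (n + ρ) * (n + 1 + ρ).factorial * B (G (ρ + 1) g x)) := by
        rw [h, show n + ρ + 1 = n + 1 + ρ by omega]
    _ ≤ 2 * (2 ^ (n + ρ) * ((n + 2).factorial * (n + 1 + ρ) ^ ρ) * B (G (ρ + 1) g x)) := by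
        gcongr
        exact h3.trans (by gcongr)
    _ = _ := by rw [show n + ρ + 1 = n + 1 + ρ by omega]; ring

theorem Hyp.pr_G (H : Hyp ρ g) {x : List (Fin 4)} (hp : Pr x) : Pr (G (ρ + 1) g x) := by
  by_cases hx : ρ + 1 ≤ x.length
  · refine pr_of_B_ne fun h => ?_
    have := H.up hx
    have := B_pos hp
    rw [h] at *
    omega
  · rw [G_short (by omega)]
    exact List.isChain_nil

theorem Hyp.low (H : Hyp ρ g) {y : List (Fin 3)} (hy : y ≠ []) :
    2 ^ y.length * B y ≤ (y.length + 2) *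
      ∑ x ∈ (W (Fin 4) (y.length + ρ)).filter (fun x => G (ρ + 1) g x = y), B x := by
  have h := H y hy
  have h2 := T_three y.length
  rw [T_four] at h
  refine Nat.le_of_mul_le_mul_left ?_ (y.length + 1).factorial_pos
  calc (y.length + 1).factorial * (2 ^ y.length * B y)
      ≤ (y.length + ρ + 1).factorial * (2 ^ (y.length + ρ) * B y) := by
        gcongr <;> omega
    _ = 1 * (2 ^ (y.length + ρ) * (y.length + ρ + 1).factorial * B y) := by ring
    _ ≤ 2 * (2 ^ (y.length + ρ) * (y.length + ρ + 1).factorial * B y) := by gcongr; omega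
    _ = _ := by rw [← h, ← mul_assoc, h2, Nat.factorial_succ]; ring

/-- The word `(s w)^k s`. -/
def pw (s w : List (Fin 4)) : ℕ → List (Fin 4)
  | 0 => []
  | k + 1 => w ++ s ++ pw s w k

theorem Hyp.no_cycle (H : Hyp ρ g) {s w : List (Fin 4)} (hs : ρ + 2 ≤ s.length)
    (hp : Pr (s ++ w ++ s)) (hE : E (ρ + 1) g (s ++ w ++ s) = 0) : D (s ++ w ++ s) = 0 := by
  by_contra hD
  have hEs : E (ρ + 1) g s = 0 := by
    have := E_append_ge (r := ρ + 1) (g := g) (s ++ w) s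
    omega
  have hDs : D s + 1 ≤ D (s ++ w ++ s) := by
    have h1 := D_append_ge (s ++ w) s
    have h2 := D_append_ge s w
    omega
  have key : ∀ k, Pr (s ++ pw s w k) ∧ E (ρ + 1) g (s ++ pw s w k) = 0 ∧
      D s + k ≤ D (s ++ pw s w k) ∧ (pw s w k).length = k * (w.length + s.length) := by
    intro k
    induction k with
    | zero => simpa [pw] using ⟨hp.right_of_append, hEs⟩
    | succ k ih =>
      have e : s ++ pw s w (k + 1) = s ++ w ++ s ++ pw s w k := by simp [pw]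
      have h1 := E_splice (g := g) (s ++ w) s (pw s w k) hs
      have h2 := D_splice (s ++ w) s (pw s w k) (by omega)
      rw [e]
      refine ⟨pr_splice hp ih.1 (by rintro rfl; simp at hs), by omega, by omega, ?_⟩
      simp [pw, ih.2.2.2]
      ring
  refine no_fact (2 * (2 ^ (ρ + 2)) ^ s.length) ((2 ^ (ρ + 2)) ^ (3 * (w.length + s.length)))
    fun k => ?_
  obtain ⟨h1, h2, h3, h4⟩ := key (3 * k)
  have h5 := fact_le_B k h1 (by omega)
  have h6 := H.up (x := s ++ pw s w (3 * k)) (by simp; omega)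
  have h7 := B_le_of_D_zero h2
  rw [length_G] at h7
  set m := (s ++ pw s w (3 * k)).length with hm
  have h8 : m + 1 ≤ 2 ^ m := Nat.lt_two_pow_self
  calc k.factorial ≤ 2 * 2 ^ m * (m + 1) ^ ρ * 2 ^ (m - ρ) := h5.trans (h6.trans (by gcongr))
    _ ≤ 2 * 2 ^ m * (2 ^ m) ^ ρ * 2 ^ m := by gcongr <;> omega
    _ = 2 * (2 ^ (ρ + 2)) ^ m := by
        simp only [← pow_mul, mul_assoc, ← pow_add]
        congr 2
        ring
    _ = _ := by rw [hm, List.length_append, h4]; ring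

theorem Hyp.bounded (H : Hyp ρ g) :
    ∃ K, ∀ x : List (Fin 4), Pr x → E (ρ + 1) g x ≤ 1 → D x < K := by
  refine ⟨(ρ + 3) * (2 * 4 ^ (ρ + 3) + 1), fun x hp hE => ?_⟩
  by_contra hcon
  obtain ⟨ss, h1, h2, h3⟩ := exists_emb (l := ρ + 3) (by omega) _ (not_lt.mp hcon)
  obtain ⟨s, hs⟩ : ∃ s, 3 ≤ ss.count s := by
    by_contra hc
    push Not at hc
    have e1 : ∑ s ∈ ss.toFinset, ss.count s = ss.length := by
      convert List.sum_toFinset_count_eq_length ss
    have e2 : ss.toFinset.card ≤ 4 ^ (ρ + 3) := by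
      have := card_le_card (s := ss.toFinset) (t := W (Fin 4) (ρ + 3))
        fun s hs => mem_W.mpr (h2 s (List.mem_toFinset.mp hs)).1
      simpa [card_W] using this
    have e3 := sum_le_card_nsmul ss.toFinset (fun s => ss.count s) 2
      fun s _ => Nat.lt_succ_iff.mp (hc s)
    simp only [smul_eq_mul] at e3
    rw [e1, h1] at e3
    omega
  have hs' := h2 s (List.count_pos_iff.mp (by omega))
  obtain ⟨w₀, _, rfl, w₁, _, rfl, w₂, t, rfl, -⟩ :=
    h3.sublist (List.replicate_sublist_iff.mpr hs)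
  have e : w₀ ++ s ++ (w₁ ++ s ++ (w₂ ++ s ++ t)) = w₀ ++ (s ++ w₁ ++ s ++ (w₂ ++ s)) ++ t := by
    simp
  rw [e] at hp hE
  have hp' := hp.left_of_append.right_of_append
  have e1 := E_infix_le (r := ρ + 1) (g := g) w₀ (s ++ w₁ ++ s ++ (w₂ ++ s)) t
  have e2 := E_splice (ρ := ρ) (g := g) (s ++ w₁) s (w₂ ++ s) (by omega)
  have e3 := E_append_ge (r := ρ + 1) (g := g) (s ++ w₁) s
  have e4 := E_append_ge (r := ρ + 1) (g := g) s w₁
  have e5 := E_append_ge (r := ρ + 1) (g := g) (s ++ w₁ ++ s) (w₂ ++ s)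
  have d1 := D_append_ge (s ++ w₁) s
  have d2 := D_append_ge (s ++ w₂) s
  by_cases h0 : E (ρ + 1) g (s ++ w₁ ++ s) = 0
  · have := H.no_cycle (by omega) hp'.left_of_append h0
    omega
  · rw [← List.append_assoc s w₂] at e2
    have := H.no_cycle (s := s) (w := w₂) (by omega)
      (by
        have e' : s ++ w₁ ++ s ++ (w₂ ++ s) = s ++ w₁ ++ (s ++ w₂ ++ s) := by simp
        rw [e'] at hp'
        exact hp'.right_of_append) (by omega)
    omega

theorem Hyp.low_contra (H : Hyp ρ g) {K : ℕ}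
    (hK : ∀ x : List (Fin 4), Pr x → E (ρ + 1) g x ≤ 1 → D x < K)
    {l c b d : ℝ} (hl : 1 ≤ l) (hc : 0 ≤ c) (hd : 0 ≤ d) (hlb : 26 / 25 * l < 2 * b)
    (hy : ∀ n : ℕ, ∃ y : List (Fin 3), y.length = n + 2 ∧ D y ≤ 1 ∧
      b ^ n ≤ d * (n + 1) * B y ∧ ∀ x, Pr x → G (ρ + 1) g x = y → UB l c x) : False := by
  refine no_growth (l := 2 * b) (m := 26 / 25 * l)
    (c := d * 4 * (16 / (1 / 100) ^ K * c * (26 / 25 * l) ^ (2 + ρ))) (by positivity) hlb 2
    fun n => ?_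
  obtain ⟨y, h1, h2, h3, h4⟩ := hy n
  have h5 := (Nat.cast_le (α := ℝ)).mpr (H.low (y := y) (by rintro rfl; simp at h1))
  rw [h1] at h5
  push_cast at h5
  have h6 := card_D_le (ε := 1 / 100) (by norm_num) (by norm_num) (n + 2 + ρ) K
  have h7 : ∑ x ∈ (W (Fin 4) (n + 2 + ρ)).filter (fun x => G (ρ + 1) g x = y), (B x : ℝ) ≤
      (((W (Fin 4) (n + 2 + ρ)).filter fun x => D x ≤ K).card : ℝ) * (c * l ^ (n + 2 + ρ)) := by
    rw [← nsmul_eq_mul, ← sum_const, sum_filter, sum_filter]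
    refine sum_le_sum fun x hx => ?_
    have h0 : 0 ≤ c * l ^ (n + 2 + ρ) := by positivity
    by_cases hG : G (ρ + 1) g x = y
    · by_cases hp : Pr x
      · rw [if_pos hG, if_pos (hK x hp (by unfold E; rw [hG]; exact h2)).le, ← mem_W.mp hx]
        exact h4 x hp hG
      · rw [if_pos hG, B_of_not_pr hp]
        split_ifs <;> simp [h0]
    · rw [if_neg hG]
      split_ifs <;> simp [h0]
  have hn : (0 : ℝ) ≤ n := Nat.cast_nonneg n
  have hB : (0 : ℝ) ≤ B y := Nat.cast_nonneg _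
  have hb : (0 : ℝ) ≤ b ^ n := pow_nonneg (by linarith) _
  calc (2 * b) ^ n = 2 ^ n * b ^ n := mul_pow _ _ _
    _ ≤ 2 ^ (n + 2) * (d * (n + 1) * B y) := by gcongr <;> norm_num
    _ = d * (n + 1) * (2 ^ (n + 2) * B y) := by ring
    _ ≤ d * (n + 1) * ((4 * (n + 1)) * ((16 / (1 / 100) ^ K * (1 + 4 * (1 / 100)) ^ (n + 2 + ρ)) *
          (c * l ^ (n + 2 + ρ)))) := by
        refine mul_le_mul_of_nonneg_left (h5.trans ?_) (by positivity)
        gcongr
        · linarith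
        · exact h7.trans (by gcongr)
    _ = _ := by
        rw [show (1 + 4 * (1 / 100) : ℝ) = 26 / 25 by norm_num, mul_pow, mul_pow]
        ring

/-- A non-alternating passage between long runs whose image is alternating. -/
def Rel (ρ : ℕ) (g : List (Fin 4) → Fin 3) (P Q : Finset (Fin 4)) : Prop :=
  ∃ A w C, Pr (A ++ w ++ C) ∧ Run (ρ + 2) P A ∧ Run (ρ + 2) Q C ∧
    E (ρ + 1) g (A ++ w ++ C) = 0 ∧ D (A ++ w ++ C) ≠ 0

theorem Rel.trans {P Q R : Finset (Fin 4)} (hQ : Q.card = 2) (h1 : Rel ρ g P Q)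
    (h2 : Rel ρ g Q R) : Rel ρ g P R := by
  obtain ⟨A, w, C, p1, hA, hC, e1, d1⟩ := h1
  obtain ⟨C', w', F, p2, hC', hF, e2, -⟩ := h2
  obtain ⟨x, hx, ex⟩ := exists_mem_head hC.2.1 hC.ne_nil
  obtain ⟨y, hy, ey⟩ := exists_mem_last hC'.2.1 hC'.ne_nil
  obtain ⟨M, hM, h3, h4⟩ := exists_bridge hQ hx hy (ρ + 2)
  obtain ⟨k1, k2, k3⟩ := pump_right (g := g) hQ hC hM (ex.trans h3.symm) (A ++ w)
  have k4 := pump_left (g := g) hQ hC' hM (ey.trans h4.symm) (w' ++ F)
  have k5 := E_splice (g := g) (A ++ w) M (w' ++ F) hM.2.2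
  have k6 := D_append_ge (A ++ w ++ M) (w' ++ F)
  rw [List.append_assoc] at e2 p2
  have e : A ++ (w ++ M ++ w') ++ F = A ++ w ++ M ++ (w' ++ F) := by simp
  refine ⟨A, w ++ M ++ w', F, ?_, hA, hF, by rw [e]; omega, by rw [e]; omega⟩
  rw [e]
  refine pr_splice (k3 p1) (List.isChain_append.mpr ⟨hM.1, p2.right_of_append, ?_⟩) hM.ne_nil
  rw [h4, ← ey]
  exact (List.isChain_append.mp p2).2.2

theorem Hyp.irrefl (H : Hyp ρ g) {P : Finset (Fin 4)} (hP : P.card = 2) : ¬ Rel ρ g P P := by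
  rintro ⟨A, w, C, p1, hA, hC, e1, d1⟩
  have hl : (A.take (ρ + 2)).length = ρ + 2 := List.length_take_of_le hA.2.2
  have hs : Run (ρ + 2) P (A.take (ρ + 2)) :=
    ⟨hA.1.take _, fun e he => hA.2.1 e (List.mem_of_mem_take he), hl.ge⟩
  obtain ⟨x, hx, ex⟩ := exists_mem_head hC.2.1 hC.ne_nil
  obtain ⟨y, hy, ey⟩ := exists_mem_last hs.2.1 hs.ne_nil
  obtain ⟨M, hM, h3, h4⟩ := exists_bridge hP hx hy (ρ + 2)
  obtain ⟨k1, k2, k3⟩ := pump_right (g := g) hP hC hM (ex.trans h3.symm) (A ++ w)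
  obtain ⟨s, t, t', h5, h6, h7⟩ := same_last hP hM.1 hs.1 hM.2.1 hs.2.1 hM.2.2 hs.2.2
    (h4.trans ey.symm)
  obtain rfl : t' = [] := by
    have := congrArg List.length h7
    rw [hl, List.length_append] at this
    exact List.length_eq_zero_iff.mp (by omega)
  have e : A ++ w ++ M = s ++ (A.drop (ρ + 2) ++ w ++ t) ++ s := by
    conv_lhs => rw [h6, ← List.take_append_drop (ρ + 2) A, h7]
    simp
  have := H.no_cycle (s := s) (w := A.drop (ρ + 2) ++ w ++ t) h5.ge (e ▸ k3 p1) (by rw [← e]; omega)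
  rw [← e] at this
  omega

/-- The letters of the image of a long alternating word over `P`. -/
def Pi (ρ : ℕ) (g : List (Fin 4) → Fin 3) (P : Finset (Fin 4)) : Finset (Fin 3) :=
  ((P ×ˢ P).filter fun p => p.1 ≠ p.2).image fun p => g (alt p.1 p.2 (ρ + 1))

theorem Hyp.pi_eq (H : Hyp ρ g) {P : Finset (Fin 4)} (hP : P.card = 2) {A : List (Fin 4)}
    (hA : Run (ρ + 2) P A) :
    (G (ρ + 1) g A).toFinset = Pi ρ g P ∧ (Pi ρ g P).card = 2 := by
  obtain ⟨a, ha, ea⟩ := exists_mem_head hA.2.1 hA.ne_nil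
  obtain ⟨b, hab, rfl⟩ := other hP ha
  obtain ⟨t, rfl⟩ := List.head?_eq_some_iff.mp ea
  have e := eq_alt (b := b) hA.1 fun c hc => by simpa using hA.2.1 c (by simp [hc])
  have hp := H.pr_G hA.1
  obtain ⟨k, hk⟩ : ∃ k, t.length + 1 + 1 - (ρ + 1) = k + 2 :=
    ⟨t.length - ρ - 1, by have := hA.2.2; simp at this; omega⟩
  rw [e, G_alt (by omega), hk] at hp ⊢
  have h1 : Pi ρ g {a, b} = {g (alt a b (ρ + 1)), g (alt b a (ρ + 1))} := by
    ext c
    simp only [Pi, mem_image, mem_filter, mem_product, mem_insert, mem_singleton, Prod.exists]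
    constructor
    · rintro ⟨x, y, ⟨⟨rfl | rfl, rfl | rfl⟩, h⟩, rfl⟩ <;> simp at h ⊢
    · rintro (rfl | rfl)
      · exact ⟨a, b, ⟨⟨Or.inl rfl, Or.inr rfl⟩, hab⟩, rfl⟩
      · exact ⟨b, a, ⟨⟨Or.inr rfl, Or.inl rfl⟩, hab.symm⟩, rfl⟩
  rw [h1]
  refine ⟨?_, card_pair (List.isChain_cons_cons.mp hp).1⟩
  ext c
  rw [List.mem_toFinset]
  exact ⟨over_alt _ _ _ c, fun h => by
    rcases mem_insert.mp h with rfl | h
    · simp [alt]
    · rw [mem_singleton.mp h]; simp [alt]⟩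

theorem toFinset_G_subset (u A v : List (Fin 4)) :
    (G (ρ + 1) g A).toFinset ⊆ (G (ρ + 1) g (u ++ A ++ v)).toFinset := by
  obtain ⟨z, hz⟩ := G_append (r := ρ + 1) (g := g) (u ++ A) v
  obtain ⟨z', hz'⟩ := G_suffix (r := ρ + 1) (g := g) u A
  intro c hc
  rw [hz, hz']
  simp only [List.mem_toFinset] at hc
  simp [hc]

theorem Hyp.pi_of_infix (H : Hyp ρ g) {P : Finset (Fin 4)} (hP : P.card = 2)
    {u A v : List (Fin 4)} (hA : Run (ρ + 2) P A) (hE : E (ρ + 1) g (u ++ A ++ v) = 0) :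
    Pi ρ g P = (G (ρ + 1) g (u ++ A ++ v)).toFinset := by
  obtain ⟨h1, h2⟩ := H.pi_eq hP hA
  refine eq_of_subset_of_card_le (h1 ▸ toFinset_G_subset u A v) ?_
  rw [h2]
  exact card_toFinset_le hE

theorem Hyp.pi_rel (H : Hyp ρ g) {P Q : Finset (Fin 4)} (hP : P.card = 2) (hQ : Q.card = 2)
    (h : Rel ρ g P Q) : Pi ρ g P = Pi ρ g Q := by
  obtain ⟨A, w, C, -, hA, hC, e1, -⟩ := h
  have h1 := H.pi_of_infix hP (u := []) (v := w ++ C) hA (by simpa using e1)
  have h2 := H.pi_of_infix hQ (u := A ++ w) (v := []) hC (by simpa using e1)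
  rw [h1, h2]
  simp

theorem D_ne_of_head {P : Finset (Fin 4)} {A t : List (Fin 4)} (hA : Run (ρ + 2) P A)
    (ht : t ≠ []) (hz : ∀ z ∈ t.head?, z ∉ P) : D (A ++ t) ≠ 0 := by
  obtain ⟨z, s, rfl⟩ := List.exists_cons_of_ne_nil ht
  have := D_lt_of_head hA.2.1 (by have := hA.2.2; omega) (hz z rfl) s
  omega

theorem head_of_append {P : Finset (Fin 4)} {t v : List (Fin 4)}
    (hz : ∀ z ∈ (t ++ v).head?, z ∉ P) : ∀ z ∈ t.head?, z ∉ P :=
  fun z hz' => hz z (by rw [List.head?_append, Option.mem_def.mp hz']; rfl)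

theorem toFinset_alt {c d : Fin 3} (n : ℕ) : (alt c d (n + 2)).toFinset = {c, d} := by
  ext e
  rw [List.mem_toFinset]
  exact ⟨over_alt _ _ _ e, fun h => by
    rcases mem_insert.mp h with rfl | h
    · simp [alt]
    · rw [mem_singleton.mp h]; simp [alt]⟩

theorem Hyp.alt_contra (H : Hyp ρ g) {K : ℕ}
    (hK : ∀ x : List (Fin 4), Pr x → E (ρ + 1) g x ≤ 1 → D x < K) {p : Finset (Fin 3)}
    (hp : p.card = 2) {l c : ℝ} (hl : 1 ≤ l) (hc : 0 ≤ c) (hl' : l ≤ 18 / 5)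
    (h : ∀ x, Pr x → E (ρ + 1) g x = 0 → (G (ρ + 1) g x).toFinset = p → UB l c x) : False := by
  obtain ⟨a, b, hab, rfl⟩ := card_eq_two.mp hp
  refine H.low_contra hK (b := 2) (d := 1) hl hc zero_le_one (by linarith) fun n =>
    ⟨alt a b (n + 2), length_alt _ _ _, by rw [D_alt]; omega, ?_, fun x hx hG =>
      h x hx (by unfold E; rw [hG, D_alt]) (by rw [hG, toFinset_alt])⟩
  have h1 : ((2 ^ (n + 1) : ℕ) : ℝ) ≤ B (alt a b (n + 2)) := Nat.cast_le.mpr (le_B_alt hab _)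
  have h2 : (0 : ℝ) ≤ n := Nat.cast_nonneg n
  have h3 : (0 : ℝ) ≤ 2 ^ n := by positivity
  push_cast at h1
  rw [pow_succ] at h1
  nlinarith

theorem eps_spec (K : ℕ) : ∃ ε : ℝ, 0 < ε ∧ ε ≤ 1 ∧ ε * K ≤ 1 / 10 := by
  have h : (0 : ℝ) ≤ K := Nat.cast_nonneg K
  refine ⟨1 / (10 * (K + 1)), by positivity, ?_, ?_⟩
  · rw [div_le_one (by positivity)]; linarith
  · rw [div_mul_eq_mul_div, div_le_div_iff₀ (by positivity) (by norm_num)]; linarith

theorem Hyp.exists_rel (H : Hyp ρ g) {p : Finset (Fin 3)} (hp : p.card = 2) :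
    ∃ P Q : Finset (Fin 4), P.card = 2 ∧ Q.card = 2 ∧ Rel ρ g P Q ∧ Pi ρ g P = p := by
  by_contra hcon
  obtain ⟨K, hK⟩ := H.bounded
  obtain ⟨ε, h0, h1, h2⟩ := eps_spec K
  have h3 : 0 ≤ ε * K := by positivity
  refine H.alt_contra hK hp (l := 2 * (1 : ℕ) + ε * K) (c := ((ρ + 2).factorial / ε ^ (ρ + 2)) ^ K)
    (by push_cast; linarith) (by positivity) (by push_cast; linarith) fun x hx hE hG => ?_
  refine UB_runs h0 h1 (by omega) K 1 hx (hK x hx (by omega)) ?_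
  rintro ⟨pre, A, _, P, rfl, hP, hA, hAP, hz, w, C, post, Q, rfl, hQ, hC, hCQ, -⟩
  have e : pre ++ A ++ (w ++ C ++ post) = pre ++ (A ++ w ++ C) ++ post := by simp
  have rA : Run (ρ + 2) P A := ⟨hx.left_of_append.right_of_append, hAP, hA⟩
  have rC : Run (ρ + 2) Q C := ⟨hx.right_of_append.left_of_append.right_of_append, hCQ, hC⟩
  refine hcon ⟨P, Q, hP, hQ, ⟨A, w, C, (e ▸ hx).left_of_append.right_of_append, rA, rC, ?_, ?_⟩,
    (H.pi_of_infix hP rA hE).trans hG⟩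
  · have := E_infix_le (r := ρ + 1) (g := g) pre (A ++ w ++ C) post
    rw [← e] at this
    omega
  · rw [List.append_assoc]
    exact D_ne_of_head rA (by simp [rC.ne_nil]) (head_of_append hz)

theorem Hyp.rel_unique (H : Hyp ρ g) : ∃ F : Finset (Fin 3) → Bool → Finset (Fin 4),
    (∀ p, p.card = 2 → F p false ≠ F p true) ∧ ∀ P Q : Finset (Fin 4), P.card = 2 → Q.card = 2 →
      Rel ρ g P Q → P = F (Pi ρ g P) false ∧ Q = F (Pi ρ g P) true := by
  choose! P₀ Q₀ hP hQ hR hPi using fun p hp => H.exists_rel (p := p) hp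
  let F : Finset (Fin 3) → Bool → Finset (Fin 4) := fun p b => bif b then Q₀ p else P₀ p
  have hne : ∀ p, p.card = 2 → F p false ≠ F p true := fun p hp h =>
    H.irrefl (hP p hp) (by
      have := hR p hp
      rwa [← show P₀ p = Q₀ p from h] at this)
  have hF : ∀ p b, p.card = 2 → (F p b).card = 2 ∧ Pi ρ g (F p b) = p := by
    intro p b hp
    cases b
    · exact ⟨hP p hp, hPi p hp⟩
    · exact ⟨hQ p hp, (H.pi_rel (hP p hp) (hQ p hp) (hR p hp)).symm.trans (hPi p hp)⟩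
  have hsurj : ∀ P : Finset (Fin 4), P.card = 2 → ∃ b, P = F (Pi ρ g P) b ∧
      (Pi ρ g P).card = 2 := by
    have := surj_on_of_inj_on_of_card_le (s := powersetCard 2 (univ : Finset (Fin 3)) ×ˢ univ)
      (t := powersetCard 2 (univ : Finset (Fin 4))) (fun a _ => F a.1 a.2)
      (fun a ha => by
        simp only [mem_product, mem_powersetCard, subset_univ, true_and] at ha ⊢
        exact (hF _ _ ha.1).1)
      (fun a b ha hb h => by
        simp only [mem_product, mem_powersetCard, subset_univ, true_and] at ha hb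
        have h1 : a.1 = b.1 := by rw [← (hF a.1 a.2 ha.1).2, h, (hF b.1 b.2 hb.1).2]
        refine Prod.ext h1 ?_
        rw [← h1] at h
        have := hne a.1 ha.1
        cases h2 : a.2 <;> cases h3 : b.2 <;> simp_all)
      (by simp [Nat.choose])
    intro P hP
    obtain ⟨a, ha, h⟩ := this P (by simp [hP])
    simp only [mem_product, mem_powersetCard, subset_univ, true_and] at ha
    have h1 : Pi ρ g P = a.1 := by rw [h, (hF _ _ ha.1).2]
    exact ⟨a.2, by rw [h1, ← h], h1 ▸ ha.1⟩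
  refine ⟨F, hne, fun P Q h1 h2 h => ?_⟩
  obtain ⟨b, hb, hc⟩ := hsurj P h1
  obtain ⟨b', hb', -⟩ := hsurj Q h2
  rw [← H.pi_rel h1 h2 h] at hb'
  have hPQ : P ≠ Q := fun e => H.irrefl h1 (e ▸ h)
  cases b <;> cases b'
  · exact absurd (hb.trans hb'.symm) hPQ
  · exact ⟨hb, hb'⟩
  · exfalso
    have h3 : Rel ρ g Q P := by
      have := hR _ hc
      rwa [← show P = Q₀ _ from hb, ← show Q = P₀ _ from hb'] at this
    exact H.irrefl h1 (h.trans h2 h3)
  · exact absurd (hb.trans hb'.symm) hPQ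

theorem Hyp.pi_card (H : Hyp ρ g) {P Q : Finset (Fin 4)} (hP : P.card = 2) (h : Rel ρ g P Q) :
    (Pi ρ g P).card = 2 := by
  obtain ⟨A, -, -, -, hA, -⟩ := h
  exact (H.pi_eq hP hA).2

theorem Hyp.no_double (H : Hyp ρ g) {P Q R : Finset (Fin 4)} (hP : P.card = 2) (hQ : Q.card = 2)
    (hR : R.card = 2) (h1 : Rel ρ g P Q) (h2 : Rel ρ g Q R) : False := by
  obtain ⟨F, hne, hF⟩ := H.rel_unique
  have e1 := (hF P Q hP hQ h1).2
  have e2 := (hF Q R hQ hR h2).1
  rw [← H.pi_rel hP hQ h1] at e2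
  exact hne _ (H.pi_card hP h1) (e2.symm.trans e1)

theorem free_head {P Q : Finset (Fin 4)} {w C : List (Fin 4)} (h : Free P Q w) (hC : Over Q C)
    (h0 : C ≠ []) : ∀ z ∈ (w ++ C).head?, z ∉ P := by
  intro z hz hzP
  obtain ⟨c, t, rfl⟩ := List.exists_cons_of_ne_nil h0
  have := h z hzP c (hC c (by simp))
  cases w with
  | nil => simp_all
  | cons a w => simp_all

theorem Hyp.exists_free (H : Hyp ρ g) {P Q : Finset (Fin 4)} (hP : P.card = 2) (hQ : Q.card = 2)
    (h : Rel ρ g P Q) : ∃ A w C, Run (ρ + 2) P A ∧ Run (ρ + 2) Q C ∧ Free P Q w ∧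
      E (ρ + 1) g (A ++ w ++ C) = 0 := by
  by_contra hcon
  obtain ⟨K, hK⟩ := H.bounded
  obtain ⟨ε, h0, h1, h2⟩ := eps_spec K
  have h3 : 0 ≤ ε * K := by positivity
  refine H.alt_contra hK (H.pi_card hP h) (l := 7 / 2 + ε * K)
    (c := 3 / 2 * ((ρ + 2).factorial / ε ^ (ρ + 2)) ^ K)
    (by linarith) (by positivity) (by linarith) fun x hx hE hG => ?_
  refine UB_nofree h0 h1 (by omega) K hx (hK x hx (by omega)) ?_ ?_
  · rintro ⟨pre, A, _, P, rfl, hP, hA, hAP, hz, w, C, _, Q, rfl, hQ, hC, hCQ, hz',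
      w', F, post, R, rfl, hR, hF, hFR, -⟩
    have rA : Run (ρ + 2) P A := ⟨hx.left_of_append.right_of_append, hAP, hA⟩
    have rC : Run (ρ + 2) Q C := ⟨hx.right_of_append.left_of_append.right_of_append, hCQ, hC⟩
    have rF : Run (ρ + 2) R F :=
      ⟨hx.right_of_append.right_of_append.left_of_append.right_of_append, hFR, hF⟩
    have e1 : pre ++ A ++ (w ++ C ++ (w' ++ F ++ post)) =
        pre ++ (A ++ w ++ C) ++ (w' ++ F ++ post) := by simp
    have e2 : pre ++ A ++ (w ++ C ++ (w' ++ F ++ post)) =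
        (pre ++ A ++ w) ++ (C ++ w' ++ F) ++ post := by simp
    have k1 := E_infix_le (r := ρ + 1) (g := g) pre (A ++ w ++ C) (w' ++ F ++ post)
    have k2 := E_infix_le (r := ρ + 1) (g := g) (pre ++ A ++ w) (C ++ w' ++ F) post
    rw [← e1] at k1
    rw [← e2] at k2
    refine H.no_double hP hQ hR
      ⟨A, w, C, (e1 ▸ hx).left_of_append.right_of_append, rA, rC, by omega, ?_⟩
      ⟨C, w', F, (e2 ▸ hx).left_of_append.right_of_append, rC, rF, by omega, ?_⟩
    · rw [List.append_assoc]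
      exact D_ne_of_head rA (by simp [rC.ne_nil]) (head_of_append hz)
    · rw [List.append_assoc]
      exact D_ne_of_head rC (by simp [rF.ne_nil]) (head_of_append hz')
  · rintro ⟨pre, A, w, C, post, P', Q', rfl, hP', hQ', hA, hC, hAP, hCQ, hw⟩
    have hp := hx.left_of_append.right_of_append
    have rA : Run (ρ + 2) P' A := ⟨hp.left_of_append.left_of_append, hAP, hA⟩
    have rC : Run (ρ + 2) Q' C := ⟨hp.right_of_append, hCQ, hC⟩
    have k1 := E_infix_le (r := ρ + 1) (g := g) pre (A ++ w ++ C) post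
    have hrel : Rel ρ g P' Q' := ⟨A, w, C, hp, rA, rC, by omega, by
      rw [List.append_assoc]
      exact D_ne_of_head rA (by simp [rC.ne_nil]) (free_head hw hCQ rC.ne_nil)⟩
    have hpi : Pi ρ g P' = Pi ρ g P := by
      rw [← hG, H.pi_of_infix hP' (u := pre) (v := w ++ C ++ post) rA (by simpa using hE)]
      simp
    obtain ⟨F, -, hF⟩ := H.rel_unique
    obtain ⟨e1, e2⟩ := hF P Q hP hQ h
    obtain ⟨e3, e4⟩ := hF P' Q' hP' hQ' hrel
    rw [hpi, ← e1] at e3
    rw [hpi, ← e2] at e4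
    subst e3 e4
    exact hcon ⟨A, w, C, rA, rC, hw, by omega⟩

end Pool.Agent.P.MP_f3d782_pr
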