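import Mathlib
import Pool.Agent.P.MP_f3d782_pr.Defs
import Pool.Agent.P.MP_f3d782_pr.Main

set_option autoImplicit false

namespace Pool.Agent.P.MP_f3d782_pr

open Finset MeasureTheory

theorem S_ofFn {α : Type} {n : ℕ} (z : Fin (n + 1) → α) (h : List α → ℕ) :
    S (List.ofFn z) h = ∑ j : Fin (n + 1), h (List.ofFn (fun i => z (j.succAbove i))) := by
  induction n generalizing h with
  | zero => simp [S]
  | succ n ih =>
    rw [List.ofFn_succ, S, Fin.sum_univ_succ, ih]
    congr 1
    refine sum_congr rfl fun j _ => ?_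
    rw [List.ofFn_succ (f := fun i => z (j.succ.succAbove i))]
    simp

/-- The arrival order in which `j` comes last and the others come in the order `τ`. -/
def ext {n : ℕ} (j : Fin (n + 1)) (τ : Equiv.Perm (Fin n)) : Equiv.Perm (Fin (n + 1)) :=
  (finSuccEquiv' j).trans ((Equiv.optionCongr τ).trans finSuccEquivLast.symm)

@[simp] theorem ext_self {n : ℕ} (j : Fin (n + 1)) (τ : Equiv.Perm (Fin n)) :
    ext j τ j = Fin.last n := by simp [ext]

@[simp] theorem ext_succAbove {n : ℕ} (j : Fin (n + 1)) (τ : Equiv.Perm (Fin n)) (i : Fin n) :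
    ext j τ (j.succAbove i) = (τ i).castSucc := by simp [ext]

theorem ext_bijective {n : ℕ} :
    Function.Bijective (fun p : Fin (n + 1) × Equiv.Perm (Fin n) => ext p.1 p.2) := by
  rw [Fintype.bijective_iff_injective_and_card]
  refine ⟨?_, by simp [Fintype.card_perm, Nat.factorial_succ]⟩
  rintro ⟨j, τ⟩ ⟨j', τ'⟩ h
  simp only at h
  obtain rfl : j = j' := (ext j τ).injective (by rw [ext_self, h, ext_self])
  refine Prod.ext rfl (Equiv.ext fun i => ?_)
  have := congrArg (fun σ : Equiv.Perm (Fin (n + 1)) => σ (j.succAbove i)) h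
  simpa using this

theorem filter_ext {n : ℕ} (j : Fin (n + 1)) (τ : Equiv.Perm (Fin n)) (t : Fin n) :
    (List.finRange (n + 1)).filter (fun k => ext j τ k ≤ t.castSucc) =
      ((List.finRange n).filter (fun i => τ i ≤ t)).map j.succAbove := by
  refine List.Pairwise.eq_of_mem_iff (r := (· < ·)) ((List.pairwise_lt_finRange _).filter _)
    (List.Pairwise.map _ (fun _ _ h => Fin.strictMono_succAbove j h)
      ((List.pairwise_lt_finRange _).filter _)) fun k => ?_
  simp only [List.mem_filter, List.mem_finRange, true_and, decide_eq_true_eq, List.mem_map]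
  rcases Fin.eq_self_or_eq_succAbove j k with rfl | ⟨i, rfl⟩
  · simp [Fin.succAbove_ne]
  · simp

theorem good_ext {q n : ℕ} (z : Fin (n + 1) → Fin q) (j : Fin (n + 1))
    (τ : Equiv.Perm (Fin n)) :
    Good z (ext j τ) ↔ Pr (List.ofFn z) ∧ Good (fun i => z (j.succAbove i)) τ := by
  unfold Good
  rw [Fin.forall_fin_succ', and_comm]
  refine and_congr ?_ (forall_congr' fun t => ?_)
  · rw [List.filter_eq_self.mpr (by simp [Fin.le_last]), List.ofFn_eq_map]
  · rw [filter_ext, List.map_map]
    rfl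

theorem card_good {q n : ℕ} (z : Fin n → Fin q) :
    Nat.card {σ : Equiv.Perm (Fin n) // Good z σ} = B (List.ofFn z) := by
  classical
  induction n with
  | zero =>
    have : ∀ σ : Equiv.Perm (Fin 0), Good z σ := fun σ t => t.elim0
    simp [this]
  | succ n ih =>
    rw [B_eq (by simp), S_ofFn]
    simp only [← ih, Nat.card_eq_fintype_card, Fintype.card_subtype, card_filter]
    rw [← ext_bijective.sum_comp, Fintype.sum_prod_type]
    simp only [good_ext]
    by_cases h : Pr (List.ofFn z)
    · simp only [h, true_and, if_true]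
    · simp only [h, false_and, if_false, sum_const_zero]

theorem sum_W_ofFn {α M : Type} [Fintype α] [AddCommMonoid M] (n : ℕ) (f : List α → M) :
    ∑ x ∈ W α n, f x = ∑ z : Fin n → α, f (List.ofFn z) := by
  symm
  refine sum_bij (fun z _ => List.ofFn z) (fun z _ => mem_W.mpr (by simp))
    (fun z _ z' _ h => List.ofFn_injective h) (fun x hx => ?_) fun _ _ => rfl
  obtain rfl := mem_W.mp hx
  exact ⟨x.get, mem_univ _, List.ofFn_get x⟩

theorem card_good_pair (q n : ℕ) :
    Nat.card {p : (Fin n → Fin q) × Equiv.Perm (Fin n) // Good p.1 p.2} = T (Fin q) n := by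
  classical
  rw [T, sum_W_ofFn]
  simp only [← card_good, Nat.card_eq_fintype_card, Fintype.card_subtype, card_filter]
  rw [Fintype.sum_prod_type]

theorem mu_eq (q n : ℕ) (z : Fin n → Fin q) :
    mu q n z = (B (List.ofFn z) : ENNReal) / (T (Fin q) n : ENNReal) := by
  rw [mu, card_good, card_good_pair]

theorem G_ofFn {α β : Type} (ρ : ℕ) (g : List α → β) (n : ℕ) (z : Fin (n + ρ) → α) :
    G (ρ + 1) g (List.ofFn z) =
      List.ofFn (fun i : Fin n => g (List.ofFn fun j : Fin (ρ + 1) =>
        z ⟨i + j, by omega⟩)) := by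
  induction n with
  | zero => simpa using G_short (by simp)
  | succ n ih =>
    have e : n + 1 + ρ = n + ρ + 1 := by omega
    rw [List.ofFn_congr e, List.ofFn_succ, G, if_pos (by simp), ih, List.ofFn_succ (n := n)]
    congr 1
    · congr 1
      rw [← List.ofFn_succ (f := fun i => z (Fin.cast e.symm i))]
      refine List.ext_getElem (by simp) fun k h₁ h₂ => ?_
      simp only [List.getElem_take, List.getElem_ofFn]
      congr 1
      ext
      simp
    · congr 1
      funext i
      congr 2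
      funext j
      congr 1
      ext
      simp
      omega

theorem hyp_of_blockFactor {a b : ℕ} {P : Measure (ℤ → Fin a)} {Q : Measure (ℤ → Fin b)}
    (hP : IsColoringLaw a P) (hQ : IsColoringLaw b Q) (ha : ∀ n, 0 < T (Fin a) n)
    (hb : ∀ n, 0 < T (Fin b) n) (hb0 : 0 < b) (h : IsBlockFactor Q P) :
    ∃ (ρ : ℕ) (g : List (Fin a) → Fin b), Hyp ρ g := by
  classical
  obtain ⟨r, hr, g, hg⟩ := h
  obtain ⟨ρ, rfl⟩ : ∃ ρ, r = ρ + 1 := ⟨r - 1, by omega⟩
  let g' : List (Fin a) → Fin b := fun l =>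
    if h : l.length = ρ + 1 then g (fun j => l[(j : ℕ)]'(by omega)) else ⟨0, hb0⟩
  have hg' : ∀ w : Fin (ρ + 1) → Fin a, g' (List.ofFn w) = g w := fun w => by
    simp only [g', List.length_ofFn, dif_pos, List.getElem_ofFn]
  refine ⟨ρ, g', fun y hy => ?_⟩
  obtain ⟨n, y, rfl⟩ : ∃ (n : ℕ) (y' : Fin n → Fin b), y = List.ofFn y' :=
    ⟨_, y.get, (List.ofFn_get y).symm⟩
  have hn : 1 ≤ n := by
    rcases n with _ | n
    · simp at hy
    · omega
  rw [List.length_ofFn, sum_filter, sum_W_ofFn]
  have hm : Measurable (fun (x : ℤ → Fin a) (i : ℤ) =>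
      g (fun j : Fin (ρ + 1) => x (i + 1 + (j : ℕ)))) :=
    measurable_pi_lambda _ fun i => (measurable_of_finite g).comp
      (measurable_pi_lambda _ fun j => measurable_pi_apply _)
  have cyl : ∀ {c k : ℕ} (m : ℤ) (w : Fin k → Fin c),
      MeasurableSet {x : ℤ → Fin c | ∀ i : Fin k, x (m + 1 + (i : ℕ)) = w i} := by
    intro c k m w
    rw [Set.ofPred_forall]
    exact MeasurableSet.iInter fun i => measurable_pi_apply _ (measurableSet_singleton _)
  have h1 := hQ.2 0 n hn y
  rw [← hg, Measure.map_apply hm (cyl _ _)] at h1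
  set A := univ.filter fun z : Fin (n + ρ) → Fin a => G (ρ + 1) g' (List.ofFn z) = List.ofFn y
    with hA
  have h2 : (fun (x : ℤ → Fin a) (i : ℤ) => g (fun j : Fin (ρ + 1) => x (i + 1 + (j : ℕ)))) ⁻¹'
      {x | ∀ i : Fin n, x (0 + 1 + (i : ℕ)) = y i} =
      ⋃ z ∈ A, {x | ∀ i : Fin (n + ρ), x (1 + 1 + (i : ℕ)) = z i} := by
    ext x
    simp only [Set.mem_preimage, Set.mem_ofPred_eq, Set.mem_iUnion, hA, mem_filter, mem_univ,
      true_and, G_ofFn, hg', List.ofFn_inj, exists_prop]
    constructor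
    · intro hx
      refine ⟨fun i => x (1 + 1 + (i : ℕ)), funext fun i => ?_, fun _ => rfl⟩
      rw [← hx i]
      congr 1
      funext j
      push_cast
      ring_nf
    · rintro ⟨z, hz, hx⟩ i
      rw [← congrFun hz i]
      congr 1
      funext j
      rw [← hx]
      push_cast
      ring_nf
  rw [h2, measure_biUnion_finset _ (fun z _ => cyl _ _)] at h1
  swap
  · intro z _ z' _ hne
    refine Set.disjoint_left.mpr fun x hx hx' => hne (funext fun i => ?_)
    rw [← hx i, ← hx' i]
  rw [sum_congr rfl fun z _ => hP.2 1 (n + ρ) (by omega) z] at h1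
  simp only [mu_eq] at h1
  rw [← sum_filter, ← hA]
  have ha' : (T (Fin a) (n + ρ) : ENNReal) ≠ 0 := by exact_mod_cast (ha _).ne'
  have hb' : (T (Fin b) n : ENNReal) ≠ 0 := by exact_mod_cast (hb _).ne'
  simp only [div_eq_mul_inv, ← sum_mul] at h1
  have h3 : (T (Fin b) n : ENNReal) * ∑ z ∈ A, (B (List.ofFn z) : ENNReal) =
      (T (Fin a) (n + ρ) : ENNReal) * B (List.ofFn y) := by
    calc (T (Fin b) n : ENNReal) * ∑ z ∈ A, (B (List.ofFn z) : ENNReal)
        = (T (Fin b) n * T (Fin a) (n + ρ)) * ((∑ z ∈ A, (B (List.ofFn z) : ENNReal)) *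
            (T (Fin a) (n + ρ) : ENNReal)⁻¹) := by
          rw [mul_mul_mul_comm, ENNReal.mul_inv_cancel ha' (by simp), mul_one]
      _ = _ := by
          rw [h1, mul_comm (T (Fin b) n : ENNReal), mul_mul_mul_comm,
            ENNReal.mul_inv_cancel hb' (by simp), mul_one]
  exact_mod_cast h3

end Pool.Agent.P.MP_f3d782_pr
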