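import Mathlib
import Pool.Agent.P.MP_f3d782_pr.Main

set_option autoImplicit false

namespace Pool.Agent.P.MP_f3d782_pr

open Finset

variable {ρ : ℕ} {g : List (Fin 4) → Fin 3}

theorem D_root2 (i j : ℕ) :
    D ((altB (0 : Fin 3) 1 true (i + 1)).reverse ++ [] ++ altB 2 1 false (j + 1)) ≤ 1 := by
  have e : (altB (0 : Fin 3) 1 true (i + 1)).reverse ++ [] ++ altB 2 1 false (j + 1) =
      (alt 0 1 i).reverse ++ [1, 2] ++ alt 1 2 j := by simp [altB, alt]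
  have h1 := D_splice (alt (0 : Fin 3) 1 i).reverse [1, 2] (alt 1 2 j) (by simp)
  have h2 : D ([1, 2] ++ alt (1 : Fin 3) 2 j) = 0 := D_alt 1 2 (j + 2)
  have h3 := D_append_single (alt (1 : Fin 3) 0 (i + 1)).reverse 2
  have h4 : D (alt (1 : Fin 3) 0 (i + 1)).reverse = 0 := by
    rw [reverse_alt]
    split_ifs <;> exact D_alt _ _ _
  have h5 : (alt (1 : Fin 3) 0 (i + 1)).reverse ++ [2] = (alt 0 1 i).reverse ++ [1, 2] := by
    simp [alt]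
  rw [h5] at h3
  rw [e]
  omega

theorem Hyp.exists_four (H : Hyp ρ g) :
    ∃ x, Pr x ∧ E (ρ + 1) g x ≤ 1 ∧ Runs (ρ + 2) 4 x := by
  by_contra hcon
  obtain ⟨K, hK⟩ := H.bounded
  obtain ⟨ε, h0, h1, h2⟩ := eps_spec K
  have h3 : 0 ≤ ε * K := by positivity
  refine H.low_contra hK (l := 2 * (3 : ℕ) + ε * K) (c := ((ρ + 2).factorial / ε ^ (ρ + 2)) ^ K)
    (b := 17 / 5) (d := 7 / 5) (by push_cast; linarith) (by positivity) (by norm_num)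
    (by push_cast; linarith) fun n => ?_
  obtain ⟨i, j, hij, hb⟩ := beta_growth n (e := true) (f := false) (by simp)
  have hs : Semi (0 : Fin 3) 1 2 1 [] := by
    intro e f h
    cases e <;> cases f <;> simp at h ⊢
  refine ⟨_, by simp; omega, D_root2 i j, hb.trans ?_, fun x hx hG => ?_⟩
  · have := (Nat.cast_le (α := ℝ)).mpr (beta_le_B (by decide) (by decide) hs true false i j)
    gcongr
  · have hE : E (ρ + 1) g x ≤ 1 := by unfold E; rw [hG]; exact D_root2 i j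
    exact UB_runs h0 h1 (by omega) K 3 hx (hK x hx hE) fun h => hcon ⟨x, hx, hE, h⟩

theorem exists_semi {P Q : Finset (Fin 4)} (hP : P.card = 2) (hQ : Q.card = 2)
    {A w₀ C : List (Fin 4)} (hp : Pr (A ++ w₀ ++ C)) (hA : Run (ρ + 2) P A)
    (hC : Run (ρ + 2) Q C) (hz : ∀ z ∈ (w₀ ++ C).head?, z ∉ P) :
    ∃ (a b c d : Fin 4) (e f : Bool) (w C' : List (Fin 4)), a ≠ b ∧ c ≠ d ∧ P = {a, b} ∧
      Q = {c, d} ∧ Semi a b c d w ∧ ¬ (e && f) = true ∧ w₀ ++ C = w ++ C' ∧ Run (ρ + 2) Q C' ∧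
      A.getLast? = some (bif e then b else a) ∧ C'.head? = some (bif f then d else c) := by
  rw [List.append_assoc] at hp
  obtain ⟨w, v, rfl, hv, hj⟩ := junction hP hQ hp.right_of_append hC.2.1 hC.ne_nil hz
  have hC' : Run (ρ + 2) Q (v ++ C) :=
    ⟨by
      have := hp.right_of_append
      rw [List.append_assoc] at this
      exact this.right_of_append, hv.append hC.2.1, by have := hC.2.2; simp; omega⟩
  obtain ⟨x, hx, ex⟩ := exists_mem_last hA.2.1 hA.ne_nil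
  rcases hj with hj | ⟨rfl, a, b, c, h1, h2, h3, rfl, rfl, h4⟩
  · obtain ⟨y, hy, ey⟩ := exists_mem_head hC'.2.1 hC'.ne_nil
    obtain ⟨b, hb, rfl⟩ := other hP hx
    obtain ⟨d, hd, rfl⟩ := other hQ hy
    refine ⟨x, b, y, d, false, false, w, v ++ C, hb, hd, rfl, rfl, fun e f _ => hj _ ?_ _ ?_,
      by simp, by simp, hC', ex, ey⟩
    · cases e <;> simp
    · cases f <;> simp
  · have hs : Semi a b c b [] := by
      intro e f h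
      cases e <;> cases f <;> simp [h1, h2.symm, h3.symm] at h ⊢
    rcases mem_insert.mp hx with rfl | hx
    · exact ⟨x, b, c, b, false, false, [], v ++ C, h1, h3, rfl, rfl, hs, by simp, by simp, hC',
        ex, h4⟩
    · obtain rfl := mem_singleton.mp hx
      exact ⟨a, x, c, x, true, false, [], v ++ C, h1, h3, rfl, rfl, hs, by simp, by simp, hC',
        ex, h4⟩

theorem run_altB {a b : Fin 4} (h : a ≠ b) (e : Bool) {L n : ℕ} (hn : L ≤ n) :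
    Run L {a, b} (altB a b e (n + 1)) := ⟨pr_altB h _ _, over_altB _ _ _ _, by simp; omega⟩

theorem Run.reverse {L : ℕ} {P : Finset (Fin 4)} {A : List (Fin 4)} (h : Run L P A) :
    Run L P A.reverse := ⟨pr_reverse.mpr h.1, h.2.1.reverse, by simpa using h.2.2⟩

theorem not_hyp_four_three (ρ : ℕ) (g : List (Fin 4) → Fin 3) : ¬ Hyp ρ g := by
  intro H
  obtain ⟨_, hx, hE, pre, A₁, _, P₁, rfl, hP₁, l₁, o₁, z₁, v₁, A₂, _, P₂, rfl, hP₂, l₂, o₂, z₂,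
    v₂, A₃, _, P₃, rfl, hP₃, l₃, o₃, z₃, v₃, A₄, post, P₄, rfl, hP₄, l₄, o₄, -⟩ := H.exists_four
  have r₁ : Run (ρ + 2) P₁ A₁ := ⟨hx.left_of_append.right_of_append, o₁, l₁⟩
  have r₂ : Run (ρ + 2) P₂ A₂ := ⟨hx.right_of_append.left_of_append.right_of_append, o₂, l₂⟩
  have r₃ : Run (ρ + 2) P₃ A₃ :=
    ⟨hx.right_of_append.right_of_append.left_of_append.right_of_append, o₃, l₃⟩
  have r₄ : Run (ρ + 2) P₄ A₄ :=
    ⟨hx.right_of_append.right_of_append.right_of_append.left_of_append.right_of_append, o₄, l₄⟩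
  have e : pre ++ A₁ ++ (v₁ ++ A₂ ++ (v₂ ++ A₃ ++ (v₃ ++ A₄ ++ post))) =
      pre ++ (A₁ ++ v₁ ++ A₂ ++ (v₂ ++ A₃ ++ (v₃ ++ A₄))) ++ post := by simp
  rw [e] at hx hE
  have hx' := hx.left_of_append.right_of_append
  have p₁ : Pr (A₁ ++ v₁ ++ A₂) := hx'.left_of_append
  have e₂ : A₁ ++ v₁ ++ A₂ ++ (v₂ ++ A₃ ++ (v₃ ++ A₄)) =
      A₁ ++ v₁ ++ (A₂ ++ v₂ ++ A₃) ++ (v₃ ++ A₄) := by simp
  have e₃ : A₁ ++ v₁ ++ A₂ ++ (v₂ ++ A₃ ++ (v₃ ++ A₄)) =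
      A₁ ++ v₁ ++ A₂ ++ v₂ ++ (A₃ ++ v₃ ++ A₄) := by simp
  have p₂ : Pr (A₂ ++ v₂ ++ A₃) := (e₂ ▸ hx').left_of_append.right_of_append
  have p₃ : Pr (A₃ ++ v₃ ++ A₄) := (e₃ ▸ hx').right_of_append
  have splice : ∀ {R₁ w₁ R₂ w₂ R₃ w₃ R₄ : List (Fin 4)}, Run (ρ + 2) P₂ R₂ → Run (ρ + 2) P₃ R₃ →
      E (ρ + 1) g (R₁ ++ w₁ ++ R₂ ++ (w₂ ++ R₃ ++ (w₃ ++ R₄))) = E (ρ + 1) g (R₁ ++ w₁ ++ R₂) +
        E (ρ + 1) g (R₂ ++ w₂ ++ R₃) + E (ρ + 1) g (R₃ ++ w₃ ++ R₄) := by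
    intro R₁ w₁ R₂ w₂ R₃ w₃ R₄ h₂ h₃
    have k1 := E_splice (g := g) (R₁ ++ w₁) R₂ (w₂ ++ R₃ ++ (w₃ ++ R₄)) h₂.2.2
    have k2 := E_splice (g := g) (R₂ ++ w₂) R₃ (w₃ ++ R₄) h₃.2.2
    rw [E_over (by omega) hP₂ h₂.1 h₂.2.1] at k1
    rw [E_over (by omega) hP₃ h₃.1 h₃.2.1] at k2
    simp only [List.append_assoc] at k1 k2 ⊢
    omega
  have k0 := E_infix_le (r := ρ + 1) (g := g) pre
    (A₁ ++ v₁ ++ A₂ ++ (v₂ ++ A₃ ++ (v₃ ++ A₄))) post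
  rw [splice r₂ r₃] at k0
  have rel₁ : E (ρ + 1) g (A₁ ++ v₁ ++ A₂) = 0 → Rel ρ g P₁ P₂ := fun h =>
    ⟨A₁, v₁, A₂, p₁, r₁, r₂, h, by
      rw [List.append_assoc]
      exact D_ne_of_head r₁ (by simp [r₂.ne_nil]) (head_of_append z₁)⟩
  have rel₂ : E (ρ + 1) g (A₂ ++ v₂ ++ A₃) = 0 → Rel ρ g P₂ P₃ := fun h =>
    ⟨A₂, v₂, A₃, p₂, r₂, r₃, h, by
      rw [List.append_assoc]
      exact D_ne_of_head r₂ (by simp [r₃.ne_nil]) (head_of_append z₂)⟩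
  have rel₃ : E (ρ + 1) g (A₃ ++ v₃ ++ A₄) = 0 → Rel ρ g P₃ P₄ := fun h =>
    ⟨A₃, v₃, A₄, p₃, r₃, r₄, h, by
      rw [List.append_assoc]
      exact D_ne_of_head r₃ (by simp [r₄.ne_nil]) (head_of_append z₃)⟩
  have h₂ : E (ρ + 1) g (A₂ ++ v₂ ++ A₃) ≠ 0 := by
    intro h
    by_cases h' : E (ρ + 1) g (A₁ ++ v₁ ++ A₂) = 0
    · exact H.no_double hP₁ hP₂ hP₃ (rel₁ h') (rel₂ h)
    · exact H.no_double hP₂ hP₃ hP₄ (rel₂ h) (rel₃ (by omega))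
  obtain ⟨B₁, w₁, C₁, s₁, t₁, f₁, g₁⟩ := H.exists_free hP₁ hP₂ (rel₁ (by omega))
  obtain ⟨B₃, w₃, C₃, s₃, t₃, f₃, g₃⟩ := H.exists_free hP₃ hP₄ (rel₃ (by omega))
  obtain ⟨a, b, c, d, e, f, w₂, C₂, hab, hcd, rfl, rfl, hs, hef, ew, t₂, la, hc⟩ :=
    exists_semi hP₂ hP₃ p₂ r₂ r₃ (head_of_append z₂)
  have g₂ : E (ρ + 1) g (A₂ ++ w₂ ++ C₂) ≤ 1 := by
    rw [List.append_assoc, ← ew, ← List.append_assoc]
    omega
  obtain ⟨a₁, ha₁, ea₁⟩ := exists_mem_last s₁.2.1 s₁.ne_nil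
  obtain ⟨b₁, h₁, rfl⟩ := other hP₁ ha₁
  obtain ⟨a₄, ha₄, ea₄⟩ := exists_mem_head t₃.2.1 t₃.ne_nil
  obtain ⟨b₄, h₄, rfl⟩ := other hP₄ ha₄
  obtain ⟨s, hs', es⟩ := exists_mem_head t₁.2.1 t₁.ne_nil
  obtain ⟨t, ht', et⟩ := exists_mem_last s₃.2.1 s₃.ne_nil
  set c₀ := 4 * (ρ + 2) + 6 + w₁.length + w₂.length + w₃.length with hc₀
  refine no_growth (l := 37 / 5) (m := 7) (c := 7 / 5 * (3 * 7 ^ c₀ * (c₀ + 1) ^ ρ))
    (by norm_num) (by norm_num) (3 + ρ) fun n => ?_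
  obtain ⟨m₁, i, j, m₄, k₁, k₂, k₃, k₄, k₅, k₆, k₇, k₈⟩ := family_lower h₁ hab hcd h₄ f₁ hs f₃ hef
    (s := s) (t := t) (by simpa using hs') (by simpa using ht') (ρ + 2) n
  have hp := pr_family h₁ hab hcd h₄ f₁ hs f₃ hef false false m₁ i j m₄
  have q₁ := (run_altB h₁ false k₁).reverse
  have q₂ := (run_altB hab e k₂).reverse
  have q₃ := run_altB hcd f k₃
  have q₄ := run_altB h₄ false k₄
  set x := (altB a₁ b₁ false (m₁ + 1)).reverse ++ w₁ ++ (((altB a b e (i + 1)).reverse ++ w₂ ++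
    altB c d f (j + 1)) ++ w₃ ++ altB a₄ b₄ false (m₄ + 1)) with hxdef
  have hEx : E (ρ + 1) g x ≤ 1 := by
    have e' : x = (altB a₁ b₁ false (m₁ + 1)).reverse ++ w₁ ++ (altB a b e (i + 1)).reverse ++
        (w₂ ++ altB c d f (j + 1) ++ (w₃ ++ altB a₄ b₄ false (m₄ + 1))) := by simp [hxdef]
    rw [e', splice q₂ q₃,
      pump_both hP₁ hP₂ q₁ s₁ q₂ t₁ (by rw [List.getLast?_reverse, ea₁]; rfl)
        (by rw [List.head?_reverse, k₆, es]),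
      pump_both hP₂ hP₃ q₂ r₂ q₃ t₂ (by rw [List.getLast?_reverse, la]; rfl) (by rw [hc]; rfl),
      pump_both hP₃ hP₄ q₃ s₃ q₄ t₃ (by rw [k₇, et]) (by rw [ea₄]; rfl)]
    omega
  have hlen : x.length ≤ n + c₀ := by simp [hxdef]; omega
  have hlen' : ρ + 1 ≤ x.length := by simp [hxdef]; omega
  have u₁ := (Nat.cast_le (α := ℝ)).mpr (H.up hlen')
  have u₂ := UB_of_D_le (H.pr_G hp) hEx
  unfold UB at u₂
  rw [length_G] at u₂
  push_cast at u₁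
  have hn : (0 : ℝ) ≤ n := Nat.cast_nonneg n
  have hc0 : (0 : ℝ) ≤ c₀ := Nat.cast_nonneg c₀
  have u₃ : (x.length : ℝ) + 1 ≤ (c₀ + 1) * (n + 1) := by
    have : (x.length : ℝ) ≤ n + c₀ := by exact_mod_cast hlen
    nlinarith
  calc (37 / 5 : ℝ) ^ n ≤ 7 / 5 * (n + 1) ^ 3 * B x := k₈
    _ ≤ 7 / 5 * (n + 1) ^ 3 * (2 * 2 ^ (n + c₀) * ((c₀ + 1) * (n + 1)) ^ ρ *
          (3 / 2 * (7 / 2) ^ (n + c₀))) := by
        gcongr
        refine u₁.trans ?_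
        gcongr
        · norm_num
        · refine u₂.trans ?_
          gcongr
          · norm_num
          · omega
    _ = _ := by
        have h7 : (7 : ℝ) ^ (n + c₀) = 2 ^ (n + c₀) * (7 / 2) ^ (n + c₀) := by
          rw [← mul_pow]; norm_num
        rw [pow_add (7 : ℝ)] at h7
        rw [mul_pow ((c₀ : ℝ) + 1), pow_add ((n : ℝ) + 1)]
        linear_combination
          (-(7 / 5 * ((n : ℝ) + 1) ^ 3 * 3 * ((c₀ : ℝ) + 1) ^ ρ * ((n : ℝ) + 1) ^ ρ)) * h7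

end Pool.Agent.P.MP_f3d782_pr
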